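import Pool.Agent.W883.UC.Omega1

set_option autoImplicit false

/-!
# The language and the class
-/

namespace Pool.Agent.W883.UC

open Lev FirstOrder FirstOrder.Language FirstOrder.Language.Structure

/-- generating tuples -/
def GT (k n : ℕ) : Type := {t : Fin k → X n // Gen n (Set.range t)}

/-- the function symbols -/
def Fn (k : ℕ) : Type := Σ n : ℕ, GT k n × X n

/-- the language -/
def Lg : FirstOrder.Language.{0, 0} := ⟨Fn, fun _ => Empty⟩

theorem neI (n : ℕ) : Nonempty (T n).I := by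
  cases n with
  | zero => exact ⟨()⟩
  | succ m => exact ⟨(1 : J m)⟩

theorem GT.pos {k n : ℕ} (t : GT k n) : Nonempty (Fin k) := by
  obtain ⟨i⟩ := neI n
  obtain ⟨_, ⟨j, -⟩, -⟩ := t.2 i
  exact ⟨j⟩

/-- the default coordinate -/
noncomputable def GT.dft {k n : ℕ} (t : GT k n) : Fin k := t.pos.some

open Classical in
/-- the value of the function symbols given by a family -/
noncomputable def evf {Ω : Type} (C : Fam Ω) {k : ℕ} (f : Fn k) (v : Fin k → Ω) : Ω :=
  if h : ∃ φ ∈ C f.1, v = φ ∘ f.2.1.1 then h.choose f.2.2 else v f.2.1.dft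

theorem evf_pos {Ω : Type} {C : Fam Ω} (hC : IsFam C) {k : ℕ} (f : Fn k) {φ : X f.1 → Ω}
    (hφ : φ ∈ C f.1) : evf C f (φ ∘ f.2.1.1) = φ f.2.2 := by
  classical
  have h : ∃ ψ ∈ C f.1, φ ∘ f.2.1.1 = ψ ∘ f.2.1.1 := ⟨φ, hφ, rfl⟩
  rw [evf, dif_pos h]
  obtain ⟨h1, h2⟩ := h.choose_spec
  obtain ⟨g, hg, h3⟩ := hC.coh hφ h1 f.2.1.2 (by
    rintro _ ⟨i, rfl⟩
    exact ⟨_, (congrFun h2 i).symm⟩)
  rw [hg.self] at h3
  exact (congrFun h3 f.2.2).symm

theorem evf_neg {Ω : Type} {C : Fam Ω} {k : ℕ} (f : Fn k) {v : Fin k → Ω}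
    (h : ¬ ∃ φ ∈ C f.1, v = φ ∘ f.2.1.1) : evf C f v = v f.2.1.dft := by
  classical
  rw [evf, dif_neg h]

/-- the family of embeddings into a level -/
def HomFam (n : ℕ) : Fam (X n) := fun m => {f | IsEmb m n f}

theorem isFam_HomFam (n : ℕ) : IsFam (HomFam n) where
  inj _ _ h := IsEmb.inj h
  comp _ _ _ _ h h' := IsEmb.comp h h'
  dir _ _ φ ψ hφ hψ := ⟨n, id, φ, ψ, IsEmb.refl n, hφ, hψ, rfl, rfl⟩

theorem carrier_HomFam (n : ℕ) : carrier (HomFam n) = Set.univ :=
  Set.eq_univ_of_forall fun x => ⟨n, id, IsEmb.refl n, x, rfl⟩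

/-- charts commute with the function symbols -/
theorem evf_comp {Ω : Type} {C : Fam Ω} (hC : IsFam C) {n : ℕ} {φ : X n → Ω} (hφ : φ ∈ C n)
    {k : ℕ} (f : Fn k) (v : Fin k → X n) : φ (evf (HomFam n) f v) = evf C f (φ ∘ v) := by
  by_cases h : ∃ g ∈ HomFam n f.1, v = g ∘ f.2.1.1
  · obtain ⟨g, hg, rfl⟩ := h
    rw [evf_pos (isFam_HomFam n) f hg, ← Function.comp_assoc, evf_pos hC f
      (hC.comp _ _ φ g hφ hg)]
    rfl
  · rw [evf_neg f h, evf_neg]
    · rfl
    · rintro ⟨ψ, hψ, h2⟩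
      apply h
      obtain ⟨g, hg, rfl⟩ := hC.coh hψ hφ f.2.1.2 (by
        rintro _ ⟨i, rfl⟩
        exact ⟨v i, congrFun h2 i⟩)
      refine ⟨g, hg, ?_⟩
      funext i
      exact hC.inj n φ hφ (congrFun h2 i)

/-- the function symbol of an enumeration -/
theorem mem_of_evf {Ω : Type} {C : Fam Ω} (hC : IsFam C) (hu : carrier C = Set.univ) {n : ℕ}
    {φ : X n → Ω} (hinj : Function.Injective φ)
    (h : ∀ (k : ℕ) (f : Fn k) (v : Fin k → X n), φ (evf (HomFam n) f v) = evf C f (φ ∘ v)) :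
    φ ∈ C n := by
  classical
  let t : Fin (Nat.card (X n)) → X n := (Finite.equivFin (X n)).symm
  have ht : Function.Surjective t := (Finite.equivFin (X n)).symm.surjective
  have hgen : Gen n (Set.range t) := by
    rw [ht.range_eq]
    exact gen_univ n
  by_cases hex : ∃ ψ ∈ C n, φ ∘ t = ψ ∘ t
  · obtain ⟨ψ, hψ, h2⟩ := hex
    have : φ = ψ := by
      funext x
      obtain ⟨i, rfl⟩ := ht x
      exact congrFun h2 i
    rw [this]
    exact hψ
  · have hconst : ∀ a a' : X n, a = a' := by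
      have h3 : ∀ a : X n, φ a = φ (t (GT.dft (⟨t, hgen⟩ : GT _ n))) := by
        intro a
        have h4 := h _ (⟨n, ⟨t, hgen⟩, a⟩ : Fn (Nat.card (X n))) t
        rw [evf_neg (C := C) (⟨n, ⟨t, hgen⟩, a⟩ : Fn (Nat.card (X n))) hex] at h4
        have h5 := evf_pos (isFam_HomFam n) (⟨n, ⟨t, hgen⟩, a⟩ : Fn (Nat.card (X n)))
          (φ := id) (IsEmb.refl n)
        have h6 : evf (HomFam n) (⟨n, ⟨t, hgen⟩, a⟩ : Fn (Nat.card (X n))) t = a := h5
        rw [h6] at h4
        exact h4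
      intro a a'
      exact hinj ((h3 a).trans (h3 a').symm)
    have hn : n = 0 := by
      by_contra hn
      have h1 : Nat.card (X 0) < Nat.card (X n) := card_mono (Nat.pos_of_ne_zero hn)
      have h2 : Subsingleton (X n) := ⟨hconst⟩
      have h3 : Nat.card (X n) ≤ 1 := Finite.card_le_one_iff_subsingleton.2 h2
      have h4 : 0 < Nat.card (X 0) := Nat.card_pos
      omega
    subst hn
    obtain ⟨x⟩ := neX 0
    have hx : φ x ∈ carrier C := by
      rw [hu]
      trivial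
    obtain ⟨m, ψ, hψ, y, hy⟩ := hx
    obtain ⟨g, hg, z, hz⟩ := exists_point y
    have : φ = ψ ∘ g := by
      funext w
      have h1 : w = x := hconst _ _
      have h2 : z = w := hconst _ _
      rw [Function.comp_apply, ← h2, hz, hy, h2, h1]
    rw [this]
    exact hC.comp _ _ _ _ hψ hg

/-- the structure of a family -/
@[reducible] noncomputable def strC {Ω : Type} (C : Fam Ω) : Lg.Structure Ω where
  funMap := fun {_} f v => evf C f v
  RelMap := fun {_} r _ => Empty.elim r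

theorem funMap_strC {Ω : Type} (C : Fam Ω) {k : ℕ} (f : Fn k) (v : Fin k → Ω) :
    @funMap Lg Ω (strC C) k f v = evf C f v := rfl

/-- charts into a structure -/
def IsChart {M : Type} [Lg.Structure M] {n : ℕ} (φ : X n → M) : Prop :=
  Function.Injective φ ∧ ∀ (k : ℕ) (f : Fn k) (v : Fin k → X n),
    φ (evf (HomFam n) f v) = @funMap Lg M _ k f (φ ∘ v)

/-- the class -/
def KK (M : Type) [Lg.Structure M] : Prop :=
  ∀ F : Finset M, F.Nonempty → ∃ (n : ℕ) (φ : X n → M), IsChart φ ∧ ∀ x ∈ F, x ∈ Set.range φ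

/-- the family of a structure -/
def famM (M : Type) [Lg.Structure M] : Fam M := fun n => {φ : X n → M | IsChart φ}

theorem IsChart.comp {M : Type} [Lg.Structure M] {n m : ℕ} {φ : X m → M} (hφ : IsChart φ)
    {f : X n → X m} (hf : IsEmb n m f) : IsChart (φ ∘ f) := by
  refine ⟨hφ.1.comp hf.inj, fun k F v => ?_⟩
  have h1 := evf_comp (isFam_HomFam m) (show f ∈ HomFam m n from hf) F v
  show φ (f (evf (HomFam n) F v)) = _
  rw [h1, hφ.2]
  rfl

theorem KK.isFam {M : Type} [Lg.Structure M] (h : KK M) : IsFam (famM M) where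
  inj _ _ h := h.1
  comp _ _ _ _ h h' := IsChart.comp h h'
  dir := by
    classical
    intro n m φ ψ hφ hψ
    have := Fintype.ofFinite (X n)
    have := Fintype.ofFinite (X m)
    obtain ⟨k, χ, hχ, hF⟩ := h (Finset.univ.image φ ∪ Finset.univ.image ψ)
      (Finset.Nonempty.inl (Finset.univ_nonempty.image φ))
    have key : ∀ (l : ℕ) (ξ : X l → M), IsChart ξ → (∀ x, ξ x ∈ Set.range χ) →
        ∃ f, IsEmb l k f ∧ ξ = χ ∘ f := by
      intro l ξ hξ hr
      choose f hf using hr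
      have hfx : ξ = χ ∘ f := funext fun x => (hf x).symm
      refine ⟨f, ?_, hfx⟩
      refine mem_of_evf (isFam_HomFam k) (carrier_HomFam k) ?_ ?_
      · intro x y hxy
        apply hξ.1
        rw [← hf, ← hf, hxy]
      · intro j F v
        apply hχ.1
        rw [hf, hξ.2, hχ.2, hfx]
        rfl
    obtain ⟨f, hf, h1⟩ := key n φ hφ fun x => hF _ (Finset.mem_union_left _
      (Finset.mem_image_of_mem _ (Finset.mem_univ x)))
    obtain ⟨f', hf', h2⟩ := key m ψ hψ fun x => hF _ (Finset.mem_union_right _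
      (Finset.mem_image_of_mem _ (Finset.mem_univ x)))
    exact ⟨k, χ, f, f', hχ, hf, hf', h1, h2⟩

theorem KK.carrier {M : Type} [Lg.Structure M] (h : KK M) :
    UC.carrier (famM M) = Set.univ := by
  refine Set.eq_univ_of_forall fun x => ?_
  obtain ⟨n, φ, hφ, h1⟩ := h {x} (Finset.singleton_nonempty x)
  exact ⟨n, φ, hφ, h1 x (Finset.mem_singleton_self x)⟩

theorem KK.funMap_eq {M : Type} [Lg.Structure M] (h : KK M) {k : ℕ} (f : Fn k)
    (v : Fin k → M) : @funMap Lg M _ k f v = evf (famM M) f v := by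
  classical
  obtain ⟨n, χ, hχ, h1⟩ := h (Finset.univ.image v) (by
    have := f.2.1.pos
    exact Finset.univ_nonempty.image v)
  have h2 : ∀ i, v i ∈ Set.range χ := fun i => h1 _ (Finset.mem_image_of_mem _ (Finset.mem_univ i))
  choose w hw using h2
  have h3 : v = χ ∘ w := funext fun i => (hw i).symm
  rw [h3, ← hχ.2, evf_comp h.isFam (show χ ∈ famM M n from hχ)]

theorem isChart_strC {Ω : Type} {C : Fam Ω} (hC : IsFam C) (hu : UC.carrier C = Set.univ) {n : ℕ}
    {φ : X n → Ω} : @IsChart Ω (strC C) n φ ↔ φ ∈ C n := by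
  constructor
  · rintro ⟨h1, h2⟩
    exact mem_of_evf hC hu h1 h2
  · intro h
    exact ⟨hC.inj _ _ h, fun k f v => evf_comp hC h f v⟩

theorem KK_strC {Ω : Type} {C : Fam Ω} (hC : IsFam C) (hu : UC.carrier C = Set.univ) :
    @KK Ω (strC C) := by
  intro F hF
  obtain ⟨x, hx⟩ := hF
  obtain ⟨n, φ, hφ, h1⟩ := hC.cover (by rw [hu]; exact ⟨x, trivial⟩) F (by
    intro x _
    rw [hu]
    trivial)
  exact ⟨n, φ, (isChart_strC hC hu).2 hφ, h1⟩

theorem KK_iso (M N : Type) [Lg.Structure M] [Lg.Structure N] (e : Nonempty (Lg.Equiv M N))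
    (h : KK M) : KK N := by
  classical
  obtain ⟨e⟩ := e
  intro F hF
  obtain ⟨n, φ, hφ, h1⟩ := h (F.image e.symm) (hF.image _)
  refine ⟨n, e ∘ φ, ⟨e.injective.comp hφ.1, fun k f v => ?_⟩, fun x hx => ?_⟩
  · show e (φ _) = _
    rw [hφ.2]
    exact e.map_fun f _
  · obtain ⟨y, hy⟩ := h1 _ (Finset.mem_image_of_mem _ hx)
    refine ⟨y, ?_⟩
    show e (φ y) = x
    rw [hy]
    exact e.apply_symm_apply x

theorem isChart_of_val {M : Type} [Lg.Structure M] {S : Lg.Substructure M} {n : ℕ}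
    {φ : X n → S} (h : IsChart (Subtype.val ∘ φ)) : IsChart φ := by
  refine ⟨fun x y hxy => h.1 (congrArg Subtype.val hxy), fun k f v => ?_⟩
  apply Subtype.ext
  exact h.2 k f v

theorem KK_sub (M : Type) [Lg.Structure M] (S : Lg.Substructure M) (h : KK M) : KK ↥S := by
  classical
  intro F hF
  have hex : ∃ (n : ℕ) (φ : X n → M), IsChart φ ∧ ∀ x ∈ F, x.1 ∈ Set.range φ := by
    obtain ⟨n, φ, hφ, h1⟩ := h (F.image Subtype.val) (hF.image _)
    exact ⟨n, φ, hφ, fun x hx => h1 _ (Finset.mem_image_of_mem _ hx)⟩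
  obtain ⟨n, ⟨φ, hφ, hcov⟩, hmin⟩ : ∃ n, (∃ φ : X n → M, IsChart φ ∧
      ∀ x ∈ F, x.1 ∈ Set.range φ) ∧ ∀ m < n, ¬ ∃ φ : X m → M, IsChart φ ∧
      ∀ x ∈ F, x.1 ∈ Set.range φ :=
    ⟨Nat.find hex, Nat.find_spec hex, fun m hm => Nat.find_min hex hm⟩
  choose! y hy using hcov
  -- the preimages generate
  let t : Fin F.card → X n := fun i => y (F.equivFin.symm i).1
  have ht : ∀ x ∈ F, ∃ i, t i = y x := fun x hx => ⟨F.equivFin ⟨x, hx⟩, by simp [t]⟩
  have hgen : Gen n (Set.range t) := by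
    intro i
    by_contra hcon
    push Not at hcon
    obtain ⟨x0, hx0⟩ := hF
    cases n with
    | zero =>
      obtain ⟨j, hj⟩ := ht x0 hx0
      exact hcon _ ⟨j, rfl⟩
    | succ n =>
      refine hmin n (Nat.lt_succ_self n) ⟨φ ∘ ch (n := n) i, hφ.comp (IsEmb.chart _), ?_⟩
      intro x hx
      obtain ⟨j, hj⟩ := ht x hx
      obtain ⟨w, hw⟩ := mem_succ.1 (hcon _ ⟨j, rfl⟩)
      refine ⟨w, ?_⟩
      rw [← hy x hx, ← hj, ← hw]
      rfl
  have hS : ∀ a, φ a ∈ S := by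
    intro a
    have h1 := hφ.2 _ (⟨n, ⟨t, hgen⟩, a⟩ : Fn F.card) t
    have h2 : evf (HomFam n) (⟨n, ⟨t, hgen⟩, a⟩ : Fn F.card) t = a :=
      evf_pos (isFam_HomFam n) (⟨n, ⟨t, hgen⟩, a⟩ : Fn F.card) (φ := id) (IsEmb.refl n)
    rw [h2] at h1
    rw [h1]
    refine S.fun_mem _ _ fun i => ?_
    show φ (t i) ∈ S
    rw [hy _ (F.equivFin.symm i).2]
    exact (F.equivFin.symm i).1.2
  refine ⟨n, fun a => ⟨φ a, hS a⟩, isChart_of_val hφ, fun x hx => ⟨y x, ?_⟩⟩
  exact Subtype.ext (hy x hx)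

theorem KK_chain (M : Type) [Lg.Structure M] (C : Set (Lg.Substructure M)) (hne : C.Nonempty)
    (hC : IsChain (· ≤ ·) C) (h : ∀ S ∈ C, KK ↥S) : KK ↥(sSup C) := by
  classical
  intro F hF
  have hdir : DirectedOn (· ≤ ·) C := hC.directedOn
  have hmem : ∀ F : Finset M, (∀ x ∈ F, x ∈ sSup C) → ∃ S ∈ C, ∀ x ∈ F, x ∈ S := by
    intro F
    induction F using Finset.induction_on with
    | empty =>
      intro _
      obtain ⟨S, hS⟩ := hne
      exact ⟨S, hS, by simp⟩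
    | insert a F _ ih =>
      intro hF
      obtain ⟨S, hS, h1⟩ := ih fun x hx => hF x (Finset.mem_insert_of_mem hx)
      obtain ⟨S', hS', h2⟩ := (Substructure.mem_sSup_of_directedOn hne hdir).1
        (hF a (Finset.mem_insert_self _ _))
      obtain ⟨S'', hS'', h3, h4⟩ := hdir S hS S' hS'
      refine ⟨S'', hS'', fun x hx => ?_⟩
      rcases Finset.mem_insert.1 hx with rfl | hx
      · exact h4 h2
      · exact h3 (h1 x hx)
  obtain ⟨S, hS, h1⟩ := hmem (F.image Subtype.val) (by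
    intro x hx
    obtain ⟨y, -, rfl⟩ := Finset.mem_image.1 hx
    exact y.2)
  have hle : S ≤ sSup C := le_sSup hS
  let r : {x // x ∈ F} → ↥S := fun x => ⟨x.1.1, h1 _ (Finset.mem_image_of_mem _ x.2)⟩
  have hne' : (F.attach.image r).Nonempty := by
    obtain ⟨x, hx⟩ := hF
    exact ⟨_, Finset.mem_image_of_mem _ (Finset.mem_attach _ ⟨x, hx⟩)⟩
  obtain ⟨n, φ, hφ, h2⟩ := h S hS (F.attach.image r) hne'
  refine ⟨n, fun a => ⟨(φ a).1, hle (φ a).2⟩, ⟨fun x y hxy => hφ.1 (Subtype.ext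
    (congrArg (fun z : ↥(sSup C) => z.1) hxy)), fun k f v => ?_⟩, fun x hx => ?_⟩
  · apply Subtype.ext
    exact congrArg (fun z : ↥S => z.1) (hφ.2 k f v)
  · obtain ⟨a, ha⟩ := h2 _ (Finset.mem_image_of_mem _ (Finset.mem_attach _ ⟨x, hx⟩))
    exact ⟨a, Subtype.ext (congrArg (fun z : ↥S => z.1) ha)⟩

/-- maps of families are maps of structures -/
theorem evf_map {Ω Ω' : Type} {C : Fam Ω} {C' : Fam Ω'} (hC : IsFam C) (hC' : IsFam C')
    (θ : Ω → Ω') (h : ∀ n (φ : X n → Ω), φ ∈ C n ↔ θ ∘ φ ∈ C' n)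
    (hs : Function.Bijective θ) {k : ℕ} (f : Fn k) (v : Fin k → Ω) :
    θ (evf C f v) = evf C' f (θ ∘ v) := by
  by_cases hex : ∃ φ ∈ C f.1, v = φ ∘ f.2.1.1
  · obtain ⟨φ, hφ, rfl⟩ := hex
    rw [evf_pos hC f hφ, ← Function.comp_assoc, evf_pos hC' f ((h _ _).1 hφ)]
    rfl
  · rw [evf_neg f hex, evf_neg]
    · rfl
    · rintro ⟨ψ, hψ, h2⟩
      apply hex
      let e := Equiv.ofBijective θ hs
      have h3 : θ ∘ (e.symm ∘ ψ) = ψ := by
        funext x
        exact e.apply_symm_apply (ψ x)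
      refine ⟨e.symm ∘ ψ, (h _ _).2 (by rw [h3]; exact hψ), ?_⟩
      funext i
      apply hs.1
      have := congrFun h2 i
      show θ (v i) = θ (e.symm (ψ (f.2.1.1 i)))
      rw [show θ (e.symm (ψ (f.2.1.1 i))) = ψ (f.2.1.1 i) from e.apply_symm_apply _]
      exact this

theorem chain_std {Ω : Type} {φ : ∀ n, X n → Ω} (h : ∀ n, φ (n + 1) ∘ ch 1 = φ n) {n k : ℕ}
    {f : X n → X k} (hf : Std n k f) : φ k ∘ f = φ n := by
  induction hf with
  | refl => rfl
  | step _ ih => rw [← Function.comp_assoc, h, ih]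

theorem chain_eq_iff {Ω : Type} {φ : ∀ n, X n → Ω} (hi : ∀ n, Function.Injective (φ n))
    (h : ∀ n, φ (n + 1) ∘ ch 1 = φ n) {n m : ℕ} (x : X n) (y : X m) :
    φ n x = φ m y ↔ inc (le_max_left n m) x = inc (le_max_right n m) y := by
  rw [← chain_std h (inc_std (le_max_left n m)), ← chain_std h (inc_std (le_max_right n m))]
  exact (hi _).eq_iff

/-- countable members are isomorphic -/
theorem KK_countable (M N : Type) [Lg.Structure M] [Lg.Structure N] (hM : KK M) (hN : KK N)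
    (hcM : Cardinal.mk M = Cardinal.aleph0) (hcN : Cardinal.mk N = Cardinal.aleph0) :
    Nonempty (Lg.Equiv M N) := by
  classical
  have hch : ∀ (M : Type) [Lg.Structure M], KK M → Cardinal.mk M = Cardinal.aleph0 →
      ∃ φ : ∀ n, X n → M, (∀ n, φ n ∈ famM M n) ∧ (∀ n, φ (n + 1) ∘ ch 1 = φ n) ∧
      (∀ x, ∃ n, x ∈ Set.range (φ n)) ∧ famM M = chainFam (fun n => n) φ := by
    intro M _ hM hcM
    have h1 : Infinite M := Cardinal.infinite_iff.2 hcM.ge
    have h2 : Countable M := Cardinal.mk_le_aleph0_iff.1 hcM.le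
    obtain ⟨φ, g1, g2, g3⟩ := hM.isFam.exists_chain (by rw [hM.carrier]; exact Set.infinite_univ)
      (by rw [hM.carrier]; exact Set.to_countable _)
    exact ⟨φ, g1, g2, fun x => g3 x (by rw [hM.carrier]; trivial),
      hM.isFam.eq_chainFam g1 g2 g3⟩
  obtain ⟨φ, a1, a2, a3, a4⟩ := hch M hM hcM
  obtain ⟨ψ, b1, b2, b3, b4⟩ := hch N hN hcN
  have ai : ∀ n, Function.Injective (φ n) := fun n => hM.isFam.inj _ _ (a1 n)
  have bi : ∀ n, Function.Injective (ψ n) := fun n => hN.isFam.inj _ _ (b1 n)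
  choose l p hp using a3
  let θ : M → N := fun x => ψ (l x) (p x)
  have hθ : ∀ n y, θ (φ n y) = ψ n y := by
    intro n y
    rw [show θ (φ n y) = ψ (l (φ n y)) (p (φ n y)) from rfl, chain_eq_iff bi b2,
      ← chain_eq_iff ai a2]
    exact hp _
  have hbij : Function.Bijective θ := by
    constructor
    · intro x y hxy
      rw [← hp x, ← hp y, chain_eq_iff ai a2, ← chain_eq_iff bi b2]
      exact hxy
    · intro z
      obtain ⟨n, y, rfl⟩ := b3 z
      exact ⟨φ n y, hθ n y⟩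
  have hiff : ∀ n (χ : X n → M), χ ∈ famM M n ↔ θ ∘ χ ∈ famM N n := by
    intro n χ
    rw [a4, b4]
    constructor
    · rintro ⟨m, f, hf, rfl⟩
      refine ⟨m, f, hf, ?_⟩
      funext x
      exact hθ m (f x)
    · rintro ⟨m, f, hf, h⟩
      refine ⟨m, f, hf, ?_⟩
      funext x
      apply hbij.1
      have := congrFun h x
      rw [show θ (χ x) = (θ ∘ χ) x from rfl, this]
      exact (hθ m (f x)).symm
  refine ⟨{ toEquiv := Equiv.ofBijective θ hbij, map_fun' := ?_, map_rel' := ?_ }⟩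
  · intro k f x
    show θ (@funMap Lg M _ k f x) = @funMap Lg N _ k f (θ ∘ x)
    exact (congrArg θ (hM.funMap_eq f x)).trans
      ((evf_map hM.isFam hN.isFam θ hiff hbij f x).trans (hN.funMap_eq f (θ ∘ x)).symm)
  · intro k r
    exact Empty.elim r

theorem card_Lg : Lg.card ≤ Cardinal.aleph0 := by
  have h1 : ∀ k, Countable (Lg.Functions k) := by
    intro k
    have : ∀ n, Countable (GT k n × X n) := by
      intro n
      have : Finite (GT k n) := Subtype.finite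
      infer_instance
    exact inferInstanceAs (Countable (Σ n : ℕ, GT k n × X n))
  have h2 : ∀ k, Countable (Lg.Relations k) := fun k => inferInstanceAs (Countable Empty)
  exact Cardinal.mk_le_aleph0_iff.2 (inferInstanceAs (Countable
    ((Σ l, Lg.Functions l) ⊕ (Σ l, Lg.Relations l))))

/-- the family on the carrier -/
def sub {Ω : Type} (C : Fam Ω) : Fam ↥(carrier C) := fun n => {φ | Subtype.val ∘ φ ∈ C n}

theorem isFam_sub {Ω : Type} {C : Fam Ω} (hC : IsFam C) : IsFam (sub C) where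
  inj n φ hφ := (hC.inj n _ hφ).of_comp
  comp n m φ f hφ hf := hC.comp n m _ f hφ hf
  dir := by
    intro n m φ ψ hφ hψ
    obtain ⟨k, χ, f, f', hχ, hf, hf', h1, h2⟩ := hC.dir n m _ _ hφ hψ
    refine ⟨k, fun x => ⟨χ x, mem_carrier hχ x⟩, f, f', hχ, hf, hf', ?_, ?_⟩
    · funext x
      exact Subtype.ext (congrFun h1 x)
    · funext x
      exact Subtype.ext (congrFun h2 x)

theorem carrier_sub {Ω : Type} (C : Fam Ω) : carrier (sub C) = Set.univ := by
  refine Set.eq_univ_of_forall ?_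
  rintro ⟨x, n, φ, hφ, y, rfl⟩
  exact ⟨n, fun x => ⟨φ x, mem_carrier hφ x⟩, hφ, y, rfl⟩

theorem main : ∃ (M N : Type) (i : Lg.Structure M) (j : Lg.Structure N), @KK M i ∧ @KK N j ∧
    Cardinal.mk M = Cardinal.aleph 1 ∧ Cardinal.mk N = Cardinal.aleph 1 ∧
    ¬ Nonempty (@FirstOrder.Language.Equiv Lg M N i j) := by
  obtain ⟨t⟩ := exists_tight
  obtain ⟨l⟩ := exists_loose
  refine ⟨carrier t.N, carrier l.N, strC (sub t.N), strC (sub l.N),
    KK_strC (isFam_sub t.isFam) (carrier_sub _), KK_strC (isFam_sub l.isFam) (carrier_sub _),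
    t.card, l.card, ?_⟩
  rintro ⟨θ⟩
  let _ := strC (sub t.N)
  let _ := strC (sub l.N)
  refine not_iso t l θ.toEquiv ?_
  intro n φ hφ
  have h1 : @IsChart _ (strC (sub t.N)) n φ :=
    (isChart_strC (isFam_sub t.isFam) (carrier_sub _)).2 hφ
  have h2 : @IsChart _ (strC (sub l.N)) n (θ.toEquiv ∘ φ) := by
    refine ⟨θ.toEquiv.injective.comp h1.1, fun k f v => ?_⟩
    show θ.toEquiv (φ _) = _
    rw [h1.2]
    exact θ.map_fun' f _
  exact (isChart_strC (isFam_sub l.isFam) (carrier_sub _)).1 h2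

end Pool.Agent.W883.UC
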