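import Pool.Agent.W883.UC.Tower

set_option autoImplicit false

/-!
# Embeddings between the levels of the tower: coherence and saturation
-/

namespace Pool.Agent.W883.UC

open Lev

/-- points of level `n` -/
abbrev X (n : ℕ) : Type := (T n).X

/-- indices of the charts from level `n` to level `n + 1` -/
abbrev J (n : ℕ) : Type := (T n).GG

/-- the charts -/
def ch {n : ℕ} (g : J n) : X n → X (n + 1) := Lev.e g

theorem ch_inj {n : ℕ} (g : J n) : Function.Injective (ch g) := Lev.e_inj g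

/-- membership in the maximal closed sets -/
theorem mem_succ {n : ℕ} {x : X (n + 1)} {g : J n} :
    (T (n + 1)).mem x g ↔ x ∈ Set.range (ch g) := Lev.nmem_iff

/-- the embeddings -/
inductive IsEmb : (n m : ℕ) → (X n → X m) → Prop
  | refl (n : ℕ) : IsEmb n n id
  | step {n m : ℕ} {f : X n → X m} (h : IsEmb n m f) (g : J m) : IsEmb n (m + 1) (ch g ∘ f)

theorem IsEmb.le {n m : ℕ} {f : X n → X m} (h : IsEmb n m f) : n ≤ m := by
  induction h with
  | refl => exact le_rfl
  | step _ _ ih => exact ih.trans (Nat.le_succ _)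

theorem IsEmb.inj {n m : ℕ} {f : X n → X m} (h : IsEmb n m f) : Function.Injective f := by
  induction h with
  | refl => exact Function.injective_id
  | step _ g ih => exact (ch_inj g).comp ih

theorem IsEmb.chart {n : ℕ} (g : J n) : IsEmb n (n + 1) (ch g) := by
  simpa using IsEmb.step (IsEmb.refl n) g

theorem IsEmb.comp {n m k : ℕ} {f : X n → X m} {f' : X m → X k} (h' : IsEmb m k f')
    (h : IsEmb n m f) : IsEmb n k (f' ∘ f) := by
  induction h' with
  | refl => exact h
  | step _ g ih => exact ih.step g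

/-- inversion -/
theorem IsEmb.cases' {n m : ℕ} {f : X n → X m} (h : IsEmb n m f) :
    (∃ e : n = m, f = fun x => e ▸ x) ∨
      ∃ (m' : ℕ) (e : m = m' + 1) (f' : X n → X m') (g : J m'), IsEmb n m' f' ∧
        f = fun x => e ▸ ch g (f' x) := by
  cases h with
  | refl => exact Or.inl ⟨rfl, rfl⟩
  | step h g => exact Or.inr ⟨_, rfl, _, g, h, rfl⟩

theorem IsEmb.self {n : ℕ} {f : X n → X n} (h : IsEmb n n f) : f = id := by
  rcases h.cases' with ⟨e, rfl⟩ | ⟨m', e, f', g, h', -⟩
  · rfl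
  · have := h'.le
    omega

theorem IsEmb.zero {n : ℕ} {f : X n → X 0} (h : IsEmb n 0 f) : n = 0 := by
  have := h.le
  omega

theorem IsEmb.succ {n m : ℕ} {f : X n → X (m + 1)} (h : IsEmb n (m + 1) f) (hn : n ≤ m) :
    ∃ (f' : X n → X m) (g : J m), IsEmb n m f' ∧ f = ch g ∘ f' := by
  rcases h.cases' with ⟨e, -⟩ | ⟨m', e, f', g, h', hf⟩
  · omega
  · obtain rfl : m = m' := by omega
    exact ⟨f', g, h', hf⟩

/-- the group of a level acts on the embeddings into the level -/
theorem IsEmb.smul {n m : ℕ} {f : X n → X m} (h : IsEmb n m f) (hnm : n < m) (σ : (T m).G) :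
    IsEmb n m (fun x => σ • f x) := by
  obtain ⟨m', rfl⟩ : ∃ m', m = m' + 1 := ⟨m - 1, by omega⟩
  obtain ⟨f', g, hf', rfl⟩ := h.succ (by omega)
  have : (fun x => σ • (ch g ∘ f') x) = ch (n := m') (σ • (show (T (m' + 1)).I from g)) ∘ f' := by
    funext x
    exact Lev.smul_e _ _ _
  rw [this]
  exact hf'.step _

/-- `s` generates level `n` -/
def Gen (n : ℕ) (s : Set (X n)) : Prop := ∀ i : (T n).I, ∃ x ∈ s, ¬ (T n).mem x i

theorem Gen.mono {n : ℕ} {s t : Set (X n)} (h : Gen n s) (hst : s ⊆ t) : Gen n t := fun i => by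
  obtain ⟨x, hx, hxi⟩ := h i
  exact ⟨x, hst hx, hxi⟩

/-- coherence -/
theorem coh : ∀ (m n k : ℕ) (f : X n → X m) (f' : X k → X m) (s : Set (X n)), IsEmb n m f →
    IsEmb k m f' → Gen n s → (∀ x ∈ s, f x ∈ Set.range f') → ∃ h, IsEmb n k h ∧ f = f' ∘ h := by
  intro m
  induction m with
  | zero =>
    intro n k f f' s hf hf' _ _
    obtain rfl := hf.zero
    obtain rfl := hf'.zero
    exact ⟨id, IsEmb.refl 0, by rw [hf.self, hf'.self]; rfl⟩
  | succ m ih =>
    intro n k f f' s hf hf' hs hfs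
    rcases Nat.lt_or_ge m n with hnm | hnm
    · -- `n = m + 1`
      obtain rfl : n = m + 1 := le_antisymm hf.le hnm
      rcases Nat.lt_or_ge m k with hkm | hkm
      · obtain rfl : k = m + 1 := le_antisymm hf'.le hkm
        exact ⟨id, IsEmb.refl _, by rw [hf.self, hf'.self]; rfl⟩
      · exfalso
        obtain ⟨f'0, g, hf'0, rfl⟩ := hf'.succ hkm
        obtain ⟨x, hx, hxg⟩ := hs g
        apply hxg
        rw [mem_succ]
        have := hfs x hx
        rw [hf.self] at this
        obtain ⟨y, hy⟩ := this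
        exact ⟨f'0 y, hy⟩
    obtain ⟨f0, g, hf0, rfl⟩ := hf.succ hnm
    rcases Nat.lt_or_ge m k with hkm | hkm
    · obtain rfl : k = m + 1 := le_antisymm hf'.le hkm
      exact ⟨_, hf, by rw [hf'.self]; rfl⟩
    obtain ⟨f0', g', hf0', rfl⟩ := hf'.succ hkm
    by_cases hgg : g = g'
    · subst hgg
      obtain ⟨h, hh, rfl⟩ := ih n k f0 f0' s hf0 hf0' hs (by
        intro x hx
        obtain ⟨y, hy⟩ := hfs x hx
        exact ⟨y, ch_inj g hy⟩)
      exact ⟨h, hh, rfl⟩
    have hne : g⁻¹ * g' ≠ 1 := by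
      intro h
      exact hgg (inv_mul_eq_one.1 h)
    -- the absolute coordinates
    have hsH : ∀ x : s, g⁻¹ * g' ∈ (T m).H (E (γ g • f0 x)) := by
      rintro ⟨x, hx⟩
      obtain ⟨y, hy⟩ := hfs x hx
      exact (Lev.e_eq_e.1 (show Lev.e g (f0 x) = Lev.e g' (f0' y) from hy.symm)).2
    have hsfin : Finite s := Subtype.finite
    have hH := Lev.H_iInter (fun x : s => E (γ g • f0 x)) hsH
    -- `n < m`
    have hnlt : n < m := by
      rcases Nat.lt_or_ge n m with h | h
      · exact h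
      exfalso
      obtain rfl : n = m := le_antisymm hf0.le h
      have hemp : (⋂ x : s, E (γ g • f0 x)) = (∅ : Set (T n).I) := by
        rw [Set.eq_empty_iff_forall_notMem]
        intro i hi
        rw [Set.mem_iInter] at hi
        obtain ⟨x, hx, hxi⟩ := hs ((γ g)⁻¹ • i)
        apply hxi
        have := hi ⟨x, hx⟩
        rw [Lev.mem_E, hf0.self] at this
        simp only [id_eq] at this
        rw [← (T n).mem_smul (γ g)]
        simpa using this
      rw [hemp] at hH
      exact hne (Lev.H_empty hH)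
    have hf1 : IsEmb n m (fun x => γ g • f0 x) := hf0.smul hnlt _
    -- all the points
    have hall : ∀ x : X n, g⁻¹ * g' ∈ (T m).H (E (γ g • f0 x)) := by
      intro x
      refine Lev.H_mono ?_ hH
      intro i hi
      rw [Set.mem_iInter] at hi
      obtain ⟨m', rfl⟩ : ∃ m', m = m' + 1 := ⟨m - 1, by omega⟩
      obtain ⟨h, hh, heq⟩ := ih n m' (fun x => γ g • f0 x) (ch (n := m') i) s hf1
        (IsEmb.chart _) hs (by
          intro x hx
          exact mem_succ.1 (hi ⟨x, hx⟩))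
      rw [Lev.mem_E]
      exact mem_succ.2 ⟨h x, (congrFun heq x).symm⟩
    let f2 : X n → X m := fun x => (γ g')⁻¹ • γ g • f0 x
    have hf2 : IsEmb n m f2 := hf1.smul hnlt _
    have heq : ch g ∘ f0 = ch g' ∘ f2 := by
      funext x
      refine Lev.e_eq_e.2 ⟨?_, hall x⟩
      simp [f2]
    rw [heq] at hfs ⊢
    obtain ⟨h, hh, h2⟩ := ih n k f2 f0' s hf2 hf0' hs (by
      intro x hx
      obtain ⟨y, hy⟩ := hfs x hx
      exact ⟨y, ch_inj g' hy⟩)
    exact ⟨h, hh, by rw [h2]; rfl⟩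

/-- one step saturation and homogeneity -/
theorem swap_and_trans : ∀ m : ℕ,
    (∀ (n : ℕ) (f f' : X n → X m) (g : J m), IsEmb n m f → IsEmb n m f' →
      ∃ g' : J m, ch g ∘ f = ch g' ∘ f') ∧
    (∀ (n : ℕ) (f f' : X n → X m), n < m → IsEmb n m f → IsEmb n m f' →
      ∃ σ : (T m).G, f = fun x => σ • f' x) := by
  intro m
  have key : ∀ m : ℕ, (∀ (n : ℕ) (f f' : X n → X m), n < m → IsEmb n m f → IsEmb n m f' →
      ∃ σ : (T m).G, f = fun x => σ • f' x) →
      (∀ (n : ℕ) (f f' : X n → X m) (g : J m), IsEmb n m f → IsEmb n m f' →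
      ∃ g' : J m, ch g ∘ f = ch g' ∘ f') := by
    intro m htr n f f' g hf hf'
    rcases Nat.lt_or_ge n m with h | h
    · obtain ⟨σ, rfl⟩ := htr n f f' h hf hf'
      have hf1 : IsEmb n m (fun x => γ g • σ • f' x) := hf.smul h _
      obtain ⟨m', rfl⟩ : ∃ m', m = m' + 1 := ⟨m - 1, by omega⟩
      obtain ⟨f1, D, hf1', heq⟩ := hf1.succ (by omega)
      obtain ⟨D', hD'⟩ : ∃ D' : (T (m' + 1)).I, D' = D := ⟨D, rfl⟩
      have hmem : ∀ x, (T (m' + 1)).mem (γ g • σ • f' x) D' := by
        intro x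
        rw [hD']
        exact mem_succ.2 ⟨f1 x, (congrFun heq x).symm⟩
      refine ⟨g * Lev.q D' (σ, 1), ?_⟩
      funext x
      refine Lev.e_eq_e.2 ⟨?_, ?_⟩
      · rw [map_mul, Lev.γ_q, mul_smul]
      · rw [inv_mul_cancel_left]
        refine Lev.H_mono ?_ (Lev.q_mem D' (σ, 1))
        rintro _ rfl
        rw [Lev.mem_E]
        exact hmem x
    · obtain rfl : n = m := le_antisymm hf.le h
      exact ⟨g, by rw [hf.self, hf'.self]⟩
  have htr : ∀ m : ℕ, (∀ (n : ℕ) (f f' : X n → X m), n < m → IsEmb n m f → IsEmb n m f' →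
      ∃ σ : (T m).G, f = fun x => σ • f' x) := by
    intro m
    induction m with
    | zero =>
      intro n f f' h
      omega
    | succ m ih =>
      intro n f f' h hf hf'
      obtain ⟨f0, g, hf0, rfl⟩ := hf.succ (by omega)
      obtain ⟨f0', g', hf0', rfl⟩ := hf'.succ (by omega)
      obtain ⟨g1, hg1⟩ := key m ih n f0 f0' g hf0 hf0'
      obtain ⟨σ, hσ⟩ := Lev.exists_smul_eq g' g1
      refine ⟨σ, ?_⟩
      rw [hg1, ← hσ]
      funext x
      exact (Lev.smul_e _ _ _).symm
  exact ⟨key m (htr m), htr m⟩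

theorem swap {m n : ℕ} {f f' : X n → X m} (g : J m) (hf : IsEmb n m f) (hf' : IsEmb n m f') :
    ∃ g' : J m, ch g ∘ f = ch g' ∘ f' := (swap_and_trans m).1 n f f' g hf hf'

/-- saturation -/
theorem sat {n m k : ℕ} {c : X n → X k} {f : X n → X m} (hmk : m < k) (hc : IsEmb n k c)
    (hf : IsEmb n m f) : ∃ g, IsEmb m k g ∧ g ∘ f = c := by
  induction k with
  | zero => omega
  | succ k ih =>
    obtain ⟨c0, g, hc0, rfl⟩ := hc.succ (by have := hf.le; omega)
    rcases Nat.lt_or_ge m k with h | h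
    · obtain ⟨g0, hg0, rfl⟩ := ih h hc0
      exact ⟨ch g ∘ g0, hg0.step g, rfl⟩
    · obtain rfl : m = k := by omega
      obtain ⟨g', hg'⟩ := swap g hc0 hf
      exact ⟨ch g', IsEmb.chart g', hg'.symm⟩

/-- every point is in a copy of level `0` -/
theorem exists_point : ∀ {m : ℕ} (x : X m), ∃ f, IsEmb 0 m f ∧ x ∈ Set.range f := by
  intro m
  induction m with
  | zero =>
    intro x
    exact ⟨id, IsEmb.refl 0, x, rfl⟩
  | succ m ih =>
    intro x
    obtain ⟨y, g, rfl⟩ := Lev.exists_pt (L := T m) x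
    obtain ⟨f, hf, z, hz⟩ := ih ((γ g)⁻¹ • y)
    refine ⟨ch g ∘ f, hf.step g, z, ?_⟩
    show Lev.e g (f z) = Lev.pt y g
    rw [hz, Lev.e]
    simp

theorem unit_ne (L : Lev) : ((1, -1) : L.Q) ≠ 1 := by
  intro h
  have h2 : (-1 : ℤˣ) = 1 := congrArg Prod.snd h
  exact absurd h2 (by decide)

/-- proper closed sets are proper -/
theorem exists_not_mem : ∀ {m : ℕ} (i : (T m).I), ∃ x, ¬ (T m).mem x i := by
  intro m
  induction m with
  | zero =>
    intro i
    exact ⟨(), fun h => h⟩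
  | succ m ih =>
    intro g
    have hI : Nonempty (T m).I := by
      cases m with
      | zero => exact ⟨()⟩
      | succ m => exact ⟨(1 : J m)⟩
    obtain ⟨D⟩ := hI
    obtain ⟨x, hx⟩ := ih D
    refine ⟨Lev.pt x ((show J m from g) * Lev.q D (1, -1)), ?_⟩
    show ¬ Lev.nmem _ (show J m from g)
    rw [Lev.nmem_pt]
    have h1 : ((show J m from g) * Lev.q D (1, -1))⁻¹ * (show J m from g) =
        (Lev.q D (1, -1))⁻¹ := by
      rw [mul_inv_rev, mul_assoc, inv_mul_cancel, mul_one]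
    rw [h1]
    refine Lev.not_mem_H (D := D) hx ?_ ?_
    · exact inv_mem (Lev.q_mem D _)
    · exact inv_ne_one.2 (Lev.q_ne_one D (unit_ne _))

theorem gen_univ (n : ℕ) : Gen n Set.univ := fun i => by
  obtain ⟨x, hx⟩ := exists_not_mem i
  exact ⟨x, trivial, hx⟩

instance neX (n : ℕ) : Nonempty (X n) := by
  induction n with
  | zero => exact ⟨()⟩
  | succ n ih => exact ⟨ch (1 : J n) ih.some⟩

theorem card_lt (n : ℕ) : Nat.card (X n) < Nat.card (X (n + 1)) := by
  obtain ⟨x, hx⟩ := exists_not_mem (m := n + 1) (1 : J n)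
  have := Fintype.ofFinite (X n)
  have := Fintype.ofFinite (X (n + 1))
  rw [Nat.card_eq_fintype_card, Nat.card_eq_fintype_card]
  refine Fintype.card_lt_of_injective_of_notMem (ch (1 : J n)) (ch_inj _) (b := x) ?_
  intro h
  exact hx (mem_succ.2 h)

theorem card_mono : StrictMono fun n => Nat.card (X n) := strictMono_nat_of_lt_succ card_lt

end Pool.Agent.W883.UC
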