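import Pool.Agent.W883.UC.Spec

set_option autoImplicit false

/-!
# The two extensions
-/

namespace Pool.Agent.W883.UC

open Lev

/-- extending an injection -/
theorem ext_inj {Y Ω : Type} [Finite Y] (A : Set Y) (f : Y → Ω) (hf : Set.InjOn f A) (S : Set Ω)
    (hS : Sᶜ.Infinite) : ∃ f' : Y → Ω, Function.Injective f' ∧ (∀ y ∈ A, f' y = f y) ∧
      ∀ y, y ∉ A → f' y ∉ S := by
  classical
  have h1 : (Sᶜ \ f '' A).Infinite := hS.sdiff (Set.toFinite _)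
  have h2 : Infinite ↥(Sᶜ \ f '' A) := h1.to_subtype
  obtain ⟨e, he⟩ : ∃ e : Y → ↥(Sᶜ \ f '' A), Function.Injective e := by
    exact ⟨fun y => Infinite.natEmbedding _ (Finite.equivFin Y y : ℕ),
      (Infinite.natEmbedding _).injective.comp
        (Fin.val_injective.comp (Finite.equivFin Y).injective)⟩
  refine ⟨fun y => if y ∈ A then f y else (e y).1, ?_, ?_, ?_⟩
  · intro x y hxy
    by_cases hx : x ∈ A <;> by_cases hy : y ∈ A <;> simp only [hx, hy, if_true, if_false] at hxy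
    · exact hf hx hy hxy
    · exact absurd ⟨x, hx, hxy⟩ (e y).2.2
    · exact absurd ⟨y, hy, hxy.symm⟩ (e x).2.2
    · exact he (Subtype.ext hxy)
  · intro y hy
    simp [hy]
  · intro y hy
    simp only [hy, if_false]
    exact (e y).2.1

/-- recipes for the extensions -/
structure Recipe where
  k : ℕ → ℕ
  a : ∀ n, X n → X (k n)
  c : ∀ n, X (k n) → X (k (n + 1))
  ha : ∀ n, IsEmb n (k n) (a n)
  hc : ∀ n, IsEmb (k n) (k (n + 1)) (c n)
  comm : ∀ n x, c n (a n x) = a (n + 1) (ch 1 x)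
  pull : ∀ n x y, c n x = a (n + 1) y → ∃ z, x = a n z ∧ y = ch 1 z
  proper : 0 < k 0

section
variable {Ω : Type} (R : Recipe) {φ : ∀ n, X n → Ω} (hi : ∀ n, Function.Injective (φ n))
  (hl : ∀ n x, φ (n + 1) (ch 1 x) = φ n x) {S : Set Ω} (hφS : ∀ n x, φ n x ∈ S)
  (hS : Sᶜ.Infinite)
include hi hl hφS hS

theorem Recipe.step (n : ℕ) (ψ : X (R.k n) → Ω) (h1 : Function.Injective ψ)
    (h2 : ∀ x, ψ (R.a n x) = φ n x) (h3 : ∀ x, x ∉ Set.range (R.a n) → ψ x ∉ S) :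
    ∃ ψ' : X (R.k (n + 1)) → Ω, (Function.Injective ψ' ∧
      (∀ x, ψ' (R.a (n + 1) x) = φ (n + 1) x) ∧
      (∀ x, x ∉ Set.range (R.a (n + 1)) → ψ' x ∉ S)) ∧ ∀ x, ψ' (R.c n x) = ψ x := by
  classical
  have hne : Nonempty Ω := ⟨φ 0 (neX 0).some⟩
  let f : X (R.k (n + 1)) → Ω := fun y =>
    if h : ∃ x, R.a (n + 1) x = y then φ (n + 1) h.choose
    else if h : ∃ x, R.c n x = y then ψ h.choose else hne.some
  have hf1 : ∀ x, f (R.a (n + 1) x) = φ (n + 1) x := by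
    intro x
    have h : ∃ x', R.a (n + 1) x' = R.a (n + 1) x := ⟨x, rfl⟩
    simp only [f, dif_pos h]
    congr 1
    exact (R.ha (n + 1)).inj h.choose_spec
  have hf2 : ∀ x, f (R.c n x) = ψ x := by
    intro x
    by_cases h : ∃ y, R.a (n + 1) y = R.c n x
    · obtain ⟨y, hy⟩ := h
      obtain ⟨z, rfl, rfl⟩ := R.pull n x y hy.symm
      rw [← hy, hf1, hl, h2]
    · have h' : ∃ x', R.c n x' = R.c n x := ⟨x, rfl⟩
      simp only [f, dif_neg h, dif_pos h']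
      congr 1
      exact (R.hc n).inj h'.choose_spec
  have hout : ∀ x, R.c n x ∉ Set.range (R.a (n + 1)) → ψ x ∉ S := by
    intro x hx
    apply h3
    rintro ⟨z, rfl⟩
    exact hx ⟨_, (R.comm n z).symm⟩
  obtain ⟨ψ', hψ1, hψ2, hψ3⟩ := ext_inj (Set.range (R.a (n + 1)) ∪ Set.range (R.c n)) f (by
    intro x hx y hy hxy
    by_cases hxa : x ∈ Set.range (R.a (n + 1)) <;> by_cases hya : y ∈ Set.range (R.a (n + 1))
    · obtain ⟨x, rfl⟩ := hxa
      obtain ⟨y, rfl⟩ := hya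
      rw [hf1, hf1] at hxy
      rw [hi _ hxy]
    · obtain ⟨x, rfl⟩ := hxa
      obtain ⟨y, rfl⟩ := hy.resolve_left hya
      rw [hf1, hf2] at hxy
      exact absurd (hxy ▸ hφS _ _) (hout y hya)
    · obtain ⟨y, rfl⟩ := hya
      obtain ⟨x, rfl⟩ := hx.resolve_left hxa
      rw [hf1, hf2] at hxy
      exact absurd (hxy.symm ▸ hφS _ _) (hout x hxa)
    · obtain ⟨x, rfl⟩ := hx.resolve_left hxa
      obtain ⟨y, rfl⟩ := hy.resolve_left hya
      rw [hf2, hf2] at hxy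
      rw [h1 hxy]) S hS
  refine ⟨ψ', ⟨hψ1, fun x => ?_, fun x hx => ?_⟩, fun x => ?_⟩
  · rw [hψ2 _ (Or.inl ⟨x, rfl⟩), hf1]
  · by_cases hc : x ∈ Set.range (R.c n)
    · obtain ⟨y, rfl⟩ := hc
      rw [hψ2 _ (Or.inr ⟨y, rfl⟩), hf2]
      exact hout y hx
    · exact hψ3 x (fun h => h.elim hx hc)
  · rw [hψ2 _ (Or.inr ⟨x, rfl⟩), hf2]

theorem Recipe.exists_chain : ∃ ψ : ∀ n, X (R.k n) → Ω, (∀ n, Function.Injective (ψ n)) ∧
    (∀ n x, ψ n (R.a n x) = φ n x) ∧ (∀ n x, ψ (n + 1) (R.c n x) = ψ n x) ∧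
    ∀ n x, x ∉ Set.range (R.a n) → ψ n x ∉ S := by
  classical
  have hne : Nonempty Ω := ⟨φ 0 (neX 0).some⟩
  let B (n : ℕ) : Type := {ψ : X (R.k n) → Ω // Function.Injective ψ ∧
    (∀ x, ψ (R.a n x) = φ n x) ∧ ∀ x, x ∉ Set.range (R.a n) → ψ x ∉ S}
  have h0 : Nonempty (B 0) := by
    obtain ⟨ψ', hψ1, hψ2, hψ3⟩ := ext_inj (Set.range (R.a 0))
      (fun y => if h : ∃ x, R.a 0 x = y then φ 0 h.choose else hne.some) (by
        rintro _ ⟨x, rfl⟩ _ ⟨y, rfl⟩ hxy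
        have hx : ∃ x', R.a 0 x' = R.a 0 x := ⟨x, rfl⟩
        have hy : ∃ x', R.a 0 x' = R.a 0 y := ⟨y, rfl⟩
        simp only [dif_pos hx, dif_pos hy] at hxy
        rw [← hx.choose_spec, ← hy.choose_spec, hi _ hxy]) S hS
    refine ⟨⟨ψ', hψ1, fun x => ?_, hψ3⟩⟩
    have hx : ∃ x', R.a 0 x' = R.a 0 x := ⟨x, rfl⟩
    rw [hψ2 _ ⟨x, rfl⟩]
    simp only [dif_pos hx]
    exact congrArg _ ((R.ha 0).inj hx.choose_spec)
  obtain ⟨b0⟩ := h0
  have hstep : ∀ n (b : B n), ∃ b' : B (n + 1), ∀ x, b'.1 (R.c n x) = b.1 x := by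
    rintro n ⟨ψ, h1, h2, h3⟩
    obtain ⟨ψ', h, h'⟩ := R.step hi hl hφS hS n ψ h1 h2 h3
    exact ⟨⟨ψ', h⟩, h'⟩
  choose nx hnx using hstep
  let b : ∀ n, B n := fun n => Nat.rec b0 (fun n b => nx n b) n
  have hb : ∀ n, b (n + 1) = nx n (b n) := fun n => rfl
  refine ⟨fun n => (b n).1, fun n => (b n).2.1, fun n => (b n).2.2.1, fun n x => ?_,
    fun n => (b n).2.2.2⟩
  exact hnx n (b n) x

end

/-- the data of an extension by a recipe -/
structure ExtBy {Ω : Type} (R : Recipe) (C C' : Fam Ω) (ψ : ∀ n, X (R.k n) → Ω) : Prop where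
  isFam : IsFam C
  isFam' : IsFam C'
  ext : Ext C C'
  ctb : (carrier C').Countable
  eq : C' = chainFam R.k ψ
  inj : ∀ n, Function.Injective (ψ n)
  step : ∀ n x, ψ (n + 1) (R.c n x) = ψ n x
  mem : ∀ n x, ψ n x ∈ carrier C ↔ x ∈ Set.range (R.a n)
  inC : ∀ n, ψ n ∘ R.a n ∈ C n
  link : ∀ n x, ψ (n + 1) (R.a (n + 1) (ch 1 x)) = ψ n (R.a n x)

theorem Recipe.exists_ext {Ω : Type} (R : Recipe) {C : Fam Ω} (hC : IsFam C)
    (hinf : (carrier C).Infinite) (hct : (carrier C).Countable) (hS : (carrier C)ᶜ.Infinite) :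
    ∃ (C' : Fam Ω) (ψ : ∀ n, X (R.k n) → Ω), ExtBy R C C' ψ := by
  obtain ⟨φ, h1, h2, h3⟩ := hC.exists_chain hinf hct
  have hl : ∀ n x, φ (n + 1) (ch 1 x) = φ n x := fun n x => congrFun (h2 n) x
  obtain ⟨ψ, g1, g2, g3, g4⟩ := R.exists_chain (fun n => hC.inj _ _ (h1 n)) hl
    (S := carrier C) (fun n x => mem_carrier (h1 n) x) hS
  have hmem : ∀ n x, ψ n x ∈ carrier C ↔ x ∈ Set.range (R.a n) := by
    intro n x
    constructor
    · intro h
      by_contra hx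
      exact g4 n x hx h
    · rintro ⟨y, rfl⟩
      rw [g2]
      exact mem_carrier (h1 n) y
  refine ⟨chainFam R.k ψ, ψ, hC, isFam_chainFam g1 fun n => ⟨R.c n, R.hc n, ?_⟩, ⟨?_, ?_⟩, ?_,
    rfl, g1, g3, hmem, ?_, ?_⟩
  · funext x
    exact (g3 n x).symm
  · intro m χ hχ
    rw [hC.eq_chainFam h1 h2 h3] at hχ
    obtain ⟨n, f, hf, rfl⟩ := hχ
    refine ⟨n, R.a n ∘ f, (R.ha n).comp hf, ?_⟩
    funext x
    exact (g2 n _).symm
  · rintro m _ ⟨n, f, hf, rfl⟩ hχ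
    obtain ⟨h, hh, rfl⟩ := coh _ _ _ f (R.a n) Set.univ hf (R.ha n) (gen_univ m) (by
      intro x _
      exact (hmem n _).1 (hχ x))
    have : ψ n ∘ R.a n ∘ h = φ n ∘ h := by
      funext x
      exact g2 n _
    rw [this]
    exact hC.comp _ _ _ _ (h1 n) hh
  · have : carrier (chainFam R.k ψ) = ⋃ n, Set.range (ψ n) := by
      ext x
      rw [mem_carrier_chainFam, Set.mem_iUnion]
    rw [this]
    exact Set.countable_iUnion fun n => (Set.finite_range _).countable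
  · intro n
    have : ψ n ∘ R.a n = φ n := by
      funext x
      exact g2 n x
    rw [this]
    exact h1 n
  · intro n x
    rw [g2, g2, hl]

theorem ExtBy.exists_new {Ω : Type} {R : Recipe} {C C' : Fam Ω} {ψ : ∀ n, X (R.k n) → Ω}
    (h : ExtBy R C C' ψ) : ∃ x, ψ 0 x ∉ carrier C := by
  by_contra hcon
  push Not at hcon
  have h1 : Function.Surjective (R.a 0) := fun x => (h.mem 0 x).1 (hcon x)
  have h2 := Nat.card_le_card_of_surjective _ h1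
  have h3 : Nat.card (X 0) < Nat.card (X (R.k 0)) := card_mono R.proper
  omega

theorem ExtBy.mem_carrier {Ω : Type} {R : Recipe} {C C' : Fam Ω} {ψ : ∀ n, X (R.k n) → Ω}
    (h : ExtBy R C C' ψ) {x : Ω} : x ∈ carrier C' ↔ ∃ n, x ∈ Set.range (ψ n) := by
  rw [h.eq, mem_carrier_chainFam]

theorem ExtBy.range_mono {Ω : Type} {R : Recipe} {C C' : Fam Ω} {ψ : ∀ n, X (R.k n) → Ω}
    (h : ExtBy R C C' ψ) {m n : ℕ} (hmn : m ≤ n) : Set.range (ψ m) ⊆ Set.range (ψ n) := by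
  induction n, hmn using Nat.le_induction with
  | base => exact subset_rfl
  | succ n _ ih =>
    refine ih.trans ?_
    rintro _ ⟨x, rfl⟩
    exact ⟨_, h.step n x⟩

/-- the tight recipe -/
noncomputable def tightR : Recipe where
  k n := n + 1
  a _ := ch 1
  c n := ch (dl n)
  ha _ := IsEmb.chart 1
  hc _ := IsEmb.chart _
  comm n x := ch_dl_ch n x
  pull _ _ _ h := ch_dl_pull h
  proper := Nat.zero_lt_one

/-- the loose recipe -/
noncomputable def looseR : Recipe where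
  k n := n + 2
  a _ := ch 1 ∘ ch 1
  c n := ch (gl n)
  ha _ := (IsEmb.chart 1).comp (IsEmb.chart 1)
  hc _ := IsEmb.chart _
  comm n x := ch_gl_ch n x
  pull _ _ _ h := ch_gl_pull h
  proper := Nat.zero_lt_two

theorem tight_ext {Ω : Type} {C : Fam Ω} (hC : IsFam C)
    (hinf : (carrier C).Infinite) (hct : (carrier C).Countable) (hS : (carrier C)ᶜ.Infinite) :
    ∃ C' : Fam Ω, IsFam C' ∧ Ext C C' ∧ (carrier C').Countable ∧
      ∃ b ∈ carrier C', b ∉ carrier C ∧ ∀ n, n ∈ TT C' (carrier C) b := by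
  obtain ⟨C', ψ, h⟩ := tightR.exists_ext hC hinf hct hS
  refine ⟨C', h.isFam', h.ext, h.ctb, ?_⟩
  obtain ⟨x, hx⟩ := h.exists_new
  refine ⟨ψ 0 x, h.mem_carrier.2 ⟨0, x, rfl⟩, hx, fun n => ?_⟩
  refine ⟨ψ n, ?_, h.range_mono (Nat.zero_le n) ⟨x, rfl⟩, 1, fun y => ?_⟩
  · rw [h.eq]
    exact mem_chainFam tightR.k ψ n
  · exact (h.mem n _).2 ⟨y, rfl⟩

theorem loose_bound {Ω : Type} {C C' : Fam Ω} {ψ : ∀ n, X (looseR.k n) → Ω}
    (h : ExtBy looseR C C' ψ) {n : ℕ} {b : Ω} (hb : b ∈ Set.range (ψ n)) (hbC : b ∉ carrier C)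
    {m : ℕ} (hm : m ∈ TT C' (carrier C) b) : m < n + 3 := by
  classical
  by_contra hcon
  obtain ⟨χ, hχ, hbχ, g, hg⟩ := hm
  have hex : ∃ j, ∃ f, IsEmb (m + 1) (looseR.k j) f ∧ χ = ψ j ∘ f := by
    rw [h.eq] at hχ
    exact hχ
  obtain ⟨j, ⟨f, hf, rfl⟩, hmin⟩ : ∃ j, (∃ f, IsEmb (m + 1) (looseR.k j) f ∧ χ = ψ j ∘ f) ∧
      ∀ i < j, ¬ ∃ f, IsEmb (m + 1) (looseR.k i) f ∧ χ = ψ i ∘ f :=
    ⟨Nat.find hex, Nat.find_spec hex, fun i hi => Nat.find_min hex hi⟩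
  have hle : m + 1 ≤ j + 2 := hf.le
  obtain ⟨i, rfl⟩ : ∃ i, j = i + 2 := ⟨j - 2, by omega⟩
  -- the copy over the old part
  obtain ⟨w, hw, hw'⟩ := coh _ _ _ (f ∘ ch g) (looseR.a (i + 2)) Set.univ
    (hf.comp (IsEmb.chart g)) (looseR.ha (i + 2)) (gen_univ m) (by
      intro x _
      exact (h.mem _ _).1 (hg x))
  have hle2 : m ≤ i + 2 := hw.le
  -- the point `b`
  obtain ⟨y, hy⟩ := h.range_mono (show n ≤ i by omega) hb
  have hyb : ψ i y ∉ carrier C := by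
    rw [hy]
    exact hbC
  have hya : y ∉ Set.range (ch 1 ∘ ch (1 : J i)) := fun hcon => hyb ((h.mem i y).2 hcon)
  have hb2 : ψ (i + 2) (ch (gl (i + 1)) (ch (gl i) y)) = b := by
    rw [← hy]
    exact (h.step (i + 1) _).trans (h.step i y)
  obtain ⟨z, hz⟩ := hbχ
  have hz2 : f z = ch (gl (i + 1)) (ch (gl i) y) := h.inj (i + 2) (hz.trans hb2.symm)
  obtain ⟨f', g', hf', rfl⟩ := IsEmb.succ (m := i + 3) (show IsEmb (m + 1) (i + 3 + 1) f from hf)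
    (by omega)
  have hkey : ∀ x, w x ∈ Set.range (ch (1 : J (i + 1))) := by
    intro x
    refine loose_key (y := y) hya (g := g') ⟨f' z, hz2⟩ (w x) ?_
    exact ⟨f' (ch g x), congrFun hw' x⟩
  -- now everything is in the range of `ψ (i + 1)`
  have hbg : z ∉ Set.range (ch g) := by
    rintro ⟨x, rfl⟩
    apply hbC
    rw [← hz]
    exact hg x
  refine hmin (i + 1) (Nat.lt_succ_self _) ?_
  refine h.isFam'.coh hχ (by
    rw [h.eq]
    exact mem_chainFam looseR.k ψ (i + 1)) (gen_insert g hbg) ?_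
  rintro x (rfl | ⟨x, rfl⟩)
  · refine ⟨ch (gl i) (show X (i + 2) from y), ?_⟩
    exact (h.step (i + 1) _).symm.trans (congrArg (ψ (i + 2)) hz2).symm
  · obtain ⟨v, hv⟩ := hkey x
    refine ⟨looseR.a (i + 1) v, ?_⟩
    refine Eq.trans ?_ (congrArg (ψ (i + 2)) (congrFun hw' x)).symm
    show _ = ψ (i + 2) (looseR.a (i + 2) (w x))
    rw [← hv]
    exact (h.link (i + 1) v).symm

theorem loose_ext {Ω : Type} {C : Fam Ω} (hC : IsFam C)
    (hinf : (carrier C).Infinite) (hct : (carrier C).Countable) (hS : (carrier C)ᶜ.Infinite) :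
    ∃ C' : Fam Ω, IsFam C' ∧ Ext C C' ∧ (carrier C').Countable ∧
      (∃ b ∈ carrier C', b ∉ carrier C) ∧
      ∀ b ∈ carrier C', b ∉ carrier C → (TT C' (carrier C) b).Finite := by
  obtain ⟨C', ψ, h⟩ := looseR.exists_ext hC hinf hct hS
  refine ⟨C', h.isFam', h.ext, h.ctb, ?_, ?_⟩
  · obtain ⟨x, hx⟩ := h.exists_new
    exact ⟨ψ 0 x, h.mem_carrier.2 ⟨0, x, rfl⟩, hx⟩
  · intro b hb hbC
    obtain ⟨n, hn⟩ := h.mem_carrier.1 hb
    exact (Set.finite_Iio (n + 3)).subset fun m hm => loose_bound h hn hbC hm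

end Pool.Agent.W883.UC
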