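import Pool.Agent.W883.UC.Emb

set_option autoImplicit false

/-!
# Families of charts
-/

namespace Pool.Agent.W883.UC

open Lev

/-- families of maps from the levels -/
abbrev Fam (Ω : Type) : Type := ∀ n : ℕ, Set (X n → Ω)

/-- chart families -/
structure IsFam {Ω : Type} (C : Fam Ω) : Prop where
  inj : ∀ n (φ : X n → Ω), φ ∈ C n → Function.Injective φ
  comp : ∀ n m (φ : X m → Ω) (f : X n → X m), φ ∈ C m → IsEmb n m f → φ ∘ f ∈ C n
  dir : ∀ n m (φ : X n → Ω) (ψ : X m → Ω), φ ∈ C n → ψ ∈ C m →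
    ∃ (k : ℕ) (χ : X k → Ω) (f : X n → X k) (f' : X m → X k), χ ∈ C k ∧ IsEmb n k f ∧
      IsEmb m k f' ∧ φ = χ ∘ f ∧ ψ = χ ∘ f'

/-- the points of a family -/
def carrier {Ω : Type} (C : Fam Ω) : Set Ω := {x | ∃ (n : ℕ) (φ : X n → Ω), φ ∈ C n ∧ x ∈ Set.range φ}

theorem mem_carrier {Ω : Type} {C : Fam Ω} {n : ℕ} {φ : X n → Ω} (h : φ ∈ C n) (x : X n) :
    φ x ∈ carrier C := ⟨n, φ, h, x, rfl⟩

section
variable {Ω : Type} {C : Fam Ω} (hC : IsFam C)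
include hC

/-- coherence in a family -/
theorem IsFam.coh {n m : ℕ} {φ : X n → Ω} {ψ : X m → Ω} {s : Set (X n)} (hφ : φ ∈ C n)
    (hψ : ψ ∈ C m) (hs : Gen n s) (h : ∀ x ∈ s, φ x ∈ Set.range ψ) :
    ∃ f, IsEmb n m f ∧ φ = ψ ∘ f := by
  obtain ⟨k, χ, f, f', hχ, hf, hf', rfl, rfl⟩ := hC.dir n m φ ψ hφ hψ
  obtain ⟨g, hg, rfl⟩ := UC.coh k n m f f' s hf hf' hs (by
    intro x hx
    obtain ⟨y, hy⟩ := h x hx
    exact ⟨y, hC.inj k χ hχ hy⟩)
  exact ⟨g, hg, rfl⟩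

/-- finite sets of points are covered -/
theorem IsFam.cover (hne : (carrier C).Nonempty) (F : Finset Ω) (hF : ∀ x ∈ F, x ∈ carrier C) :
    ∃ (k : ℕ) (χ : X k → Ω), χ ∈ C k ∧ ∀ x ∈ F, x ∈ Set.range χ := by
  classical
  induction F using Finset.induction_on with
  | empty =>
    obtain ⟨x, n, φ, hφ, -⟩ := hne
    exact ⟨n, φ, hφ, by simp⟩
  | insert a F _ ih =>
    obtain ⟨k, χ, hχ, hF'⟩ := ih fun x hx => hF x (Finset.mem_insert_of_mem hx)
    obtain ⟨m, ψ, hψ, hψa⟩ := hF a (Finset.mem_insert_self _ _)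
    obtain ⟨l, ξ, f, f', hξ, hf, hf', rfl, rfl⟩ := hC.dir k m χ ψ hχ hψ
    refine ⟨l, ξ, hξ, fun x hx => ?_⟩
    rcases Finset.mem_insert.1 hx with rfl | hx
    · obtain ⟨y, rfl⟩ := hψa
      exact ⟨_, rfl⟩
    · obtain ⟨y, rfl⟩ := hF' x hx
      exact ⟨_, rfl⟩

/-- in an infinite family there are arbitrarily large charts over a given one -/
theorem IsFam.big (hinf : (carrier C).Infinite) {n : ℕ} {φ : X n → Ω} (hφ : φ ∈ C n) (N : ℕ) :
    ∃ (k : ℕ) (χ : X k → Ω) (f : X n → X k), N < k ∧ χ ∈ C k ∧ IsEmb n k f ∧ φ = χ ∘ f := by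
  classical
  obtain ⟨F, hF, hcard⟩ := hinf.exists_subset_card_eq (Nat.card (X N) + 1)
  obtain ⟨m, ψ, hψ, hF'⟩ := hC.cover hinf.nonempty F fun x hx => hF hx
  obtain ⟨k, χ, f, f', hχ, hf, hf', rfl, rfl⟩ := hC.dir n m φ ψ hφ hψ
  refine ⟨k, χ, f, ?_, hχ, hf, rfl⟩
  by_contra hk
  have h1 : Nat.card (X k) ≤ Nat.card (X N) := card_mono.monotone (not_lt.1 hk)
  have := Fintype.ofFinite (X k)
  have h2 : F ⊆ Finset.univ.image χ := by
    intro x hx
    obtain ⟨y, rfl⟩ := hF' x hx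
    exact Finset.mem_image_of_mem _ (Finset.mem_univ _)
  have h3 := (Finset.card_le_card h2).trans Finset.card_image_le
  rw [hcard, Finset.card_univ, ← Nat.card_eq_fintype_card] at h3
  omega

/-- the extension property -/
theorem IsFam.ext (hinf : (carrier C).Infinite) {n m : ℕ} {φ : X n → Ω} (hφ : φ ∈ C n)
    {f : X n → X m} (hf : IsEmb n m f) : ∃ ψ ∈ C m, ψ ∘ f = φ := by
  obtain ⟨k, χ, c, hk, hχ, hc, rfl⟩ := hC.big hinf hφ m
  obtain ⟨g, hg, hgf⟩ := sat hk hc hf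
  exact ⟨χ ∘ g, hC.comp _ _ χ g hχ hg, by rw [Function.comp_assoc, hgf]⟩

end

/-- standard inclusions -/
inductive Std : (n k : ℕ) → (X n → X k) → Prop
  | refl (n : ℕ) : Std n n id
  | step {n k : ℕ} {f : X n → X k} (h : Std n k f) : Std n (k + 1) (ch 1 ∘ f)

theorem Std.isEmb {n k : ℕ} {f : X n → X k} (h : Std n k f) : IsEmb n k f := by
  induction h with
  | refl => exact IsEmb.refl _
  | step _ ih => exact ih.step 1

theorem exists_std {n k : ℕ} (h : n ≤ k) : ∃ f, Std n k f := by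
  induction k, h using Nat.le_induction with
  | base => exact ⟨id, Std.refl n⟩
  | succ k _ ih =>
    obtain ⟨f, hf⟩ := ih
    exact ⟨_, hf.step⟩

theorem Std.cases' {n k : ℕ} {f : X n → X k} (h : Std n k f) :
    (∃ e : n = k, f = fun x => e ▸ x) ∨
      ∃ (k' : ℕ) (e : k = k' + 1) (f' : X n → X k'), Std n k' f' ∧
        f = fun x => e ▸ ch 1 (f' x) := by
  cases h with
  | refl => exact Or.inl ⟨rfl, rfl⟩
  | step h => exact Or.inr ⟨_, rfl, _, h, rfl⟩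

theorem Std.unique : ∀ {k n : ℕ} {f f' : X n → X k}, Std n k f → Std n k f' → f = f' := by
  intro k
  induction k with
  | zero =>
    intro n f f' h h'
    obtain rfl := h.isEmb.zero
    rw [h.isEmb.self, h'.isEmb.self]
  | succ k ih =>
    intro n f f' h h'
    rcases h.cases' with ⟨e, -⟩ | ⟨k', e, g, hg, rfl⟩
    · subst e
      rw [h.isEmb.self, h'.isEmb.self]
    · obtain rfl : k = k' := by omega
      rcases h'.cases' with ⟨e', -⟩ | ⟨k'', e', g', hg', rfl⟩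
      · exfalso
        have := hg.isEmb.le
        omega
      · obtain rfl : k = k'' := by omega
        rw [ih hg hg']

theorem Std.trans {n k l : ℕ} {f : X n → X k} {f' : X k → X l} (h' : Std k l f')
    (h : Std n k f) : Std n l (f' ∘ f) := by
  induction h' with
  | refl => exact h
  | step _ ih => exact ih.step

/-- the standard inclusion -/
noncomputable def inc {n k : ℕ} (h : n ≤ k) : X n → X k := (exists_std h).choose

theorem inc_std {n k : ℕ} (h : n ≤ k) : Std n k (inc h) := (exists_std h).choose_spec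

theorem inc_emb {n k : ℕ} (h : n ≤ k) : IsEmb n k (inc h) := (inc_std h).isEmb

theorem inc_comp {n k l : ℕ} (h : n ≤ k) (h' : k ≤ l) : inc h' ∘ inc h = inc (h.trans h') :=
  ((inc_std h').trans (inc_std h)).unique (inc_std _)

theorem inc_ch {n k : ℕ} (h : n + 1 ≤ k) : inc h ∘ ch 1 = inc (n.le_succ.trans h) :=
  ((inc_std h).trans (Std.step (Std.refl n))).unique (inc_std _)

section chain
variable {Ω : Type} {C : Fam Ω} (hC : IsFam C)
include hC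

theorem IsFam.chain_step (hinf : (carrier C).Infinite) {k : ℕ} {χ : X k → Ω} (hχ : χ ∈ C k)
    {x : Ω} (hx : x ∈ carrier C) : ∃ (k' : ℕ) (h : k < k') (χ' : X k' → Ω), χ' ∈ C k' ∧
      χ' ∘ inc h.le = χ ∧ x ∈ Set.range χ' := by
  obtain ⟨m, ψ, hψ, hψx⟩ := hx
  obtain ⟨l, ξ, f, f', hξ, hf, hf', rfl, rfl⟩ := hC.dir k m χ ψ hχ hψ
  have hkl := hf.le
  obtain ⟨g, hg, hgf⟩ := sat (Nat.lt_succ_self l) (inc_emb (show k ≤ l + 1 by omega)) hf
  obtain ⟨χ', hχ', hχg⟩ := hC.ext hinf hξ hg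
  refine ⟨l + 1, by omega, χ', hχ', ?_, ?_⟩
  · rw [← hgf, ← Function.comp_assoc, hχg]
  · obtain ⟨y, rfl⟩ := hψx
    exact ⟨g (f' y), by rw [← hχg]; rfl⟩

theorem IsFam.exists_chain (hinf : (carrier C).Infinite) (hct : (carrier C).Countable) :
    ∃ φ : ∀ n, X n → Ω, (∀ n, φ n ∈ C n) ∧ (∀ n, φ (n + 1) ∘ ch 1 = φ n) ∧
      ∀ x ∈ carrier C, ∃ n, x ∈ Set.range (φ n) := by
  classical
  obtain ⟨s, hs⟩ := hct.exists_eq_range hinf.nonempty
  have hsm : ∀ i, s i ∈ carrier C := fun i => by rw [hs]; exact ⟨i, rfl⟩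
  obtain ⟨x0, n0, φ0, hφ0, -⟩ := hinf.nonempty
  let A : Type := Σ k : ℕ, {χ : X k → Ω // χ ∈ C k}
  have hstep : ∀ (a : A) (i : ℕ), ∃ b : A, ∃ h : a.1 < b.1, b.2.1 ∘ inc h.le = a.2.1 ∧
      s i ∈ Set.range b.2.1 := by
    rintro ⟨k, χ, hχ⟩ i
    obtain ⟨k', h, χ', hχ', h1, h2⟩ := hC.chain_step hinf hχ (hsm i)
    exact ⟨⟨k', χ', hχ'⟩, h, h1, h2⟩
  choose nx hnx using hstep
  let a : ℕ → A := fun n => Nat.rec ⟨n0, φ0, hφ0⟩ (fun i b => nx b i) n
  have ha : ∀ n, a (n + 1) = nx (a n) n := fun n => rfl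
  have hlt : ∀ n, (a n).1 < (a (n + 1)).1 := fun n => (hnx (a n) n).choose
  have hle : ∀ n, n ≤ (a n).1 := by
    intro n
    induction n with
    | zero => exact Nat.zero_le _
    | succ n ih => exact Nat.succ_le_of_lt (ih.trans_lt (hlt n))
  have hmono : StrictMono fun n => (a n).1 := strictMono_nat_of_lt_succ hlt
  have hcomp : ∀ i j (h : i ≤ j), (a j).2.1 ∘ inc (hmono.monotone h) = (a i).2.1 := by
    intro i j h
    induction j, h using Nat.le_induction with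
    | base =>
      have : inc (le_refl (a i).1) = id := (inc_emb (le_refl (a i).1)).self
      rw [this]
      rfl
    | succ j hij ih =>
      have h1 := (hnx (a j) j).choose_spec.1
      rw [← ih]
      have h2 : inc (hmono.monotone (Nat.le_succ_of_le hij)) =
          inc (hlt j).le ∘ inc (hmono.monotone hij) := (inc_comp _ _).symm
      rw [h2, ← Function.comp_assoc]
      congr 1
  refine ⟨fun n => (a n).2.1 ∘ inc (hle n), fun n => hC.comp _ _ _ _ (a n).2.2 (inc_emb _),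
    fun n => ?_, fun x hx => ?_⟩
  · have h1 := hcomp n (n + 1) (Nat.le_succ n)
    show ((a (n + 1)).2.1 ∘ inc (hle (n + 1))) ∘ ch 1 = (a n).2.1 ∘ inc (hle n)
    rw [← h1, Function.comp_assoc, inc_ch, Function.comp_assoc, inc_comp]
  · rw [hs] at hx
    obtain ⟨i, rfl⟩ := hx
    have h1 : s i ∈ Set.range (a (i + 1)).2.1 := (hnx (a i) i).choose_spec.2
    refine ⟨(a (i + 1)).1, ?_⟩
    obtain ⟨y, hy⟩ := h1
    refine ⟨y, ?_⟩
    rw [← hy]
    exact congrFun (hcomp (i + 1) (a (i + 1)).1 (hle (i + 1))) y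

end chain

/-- the family generated by a chain of charts -/
def chainFam {Ω : Type} (k : ℕ → ℕ) (φ : ∀ n, X (k n) → Ω) : Fam Ω :=
  fun m => {χ | ∃ (n : ℕ) (f : X m → X (k n)), IsEmb m (k n) f ∧ χ = φ n ∘ f}

theorem chain_le {Ω : Type} {k : ℕ → ℕ} {φ : ∀ n, X (k n) → Ω}
    (hl : ∀ n, ∃ f, IsEmb (k n) (k (n + 1)) f ∧ φ n = φ (n + 1) ∘ f) {i j : ℕ} (h : i ≤ j) :
    ∃ f, IsEmb (k i) (k j) f ∧ φ i = φ j ∘ f := by
  induction j, h using Nat.le_induction with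
  | base => exact ⟨id, IsEmb.refl _, rfl⟩
  | succ j _ ih =>
    obtain ⟨f, hf, h1⟩ := ih
    obtain ⟨g, hg, h2⟩ := hl j
    exact ⟨g ∘ f, hg.comp hf, by rw [h1, h2]; rfl⟩

theorem isFam_chainFam {Ω : Type} {k : ℕ → ℕ} {φ : ∀ n, X (k n) → Ω}
    (hi : ∀ n, Function.Injective (φ n))
    (hl : ∀ n, ∃ f, IsEmb (k n) (k (n + 1)) f ∧ φ n = φ (n + 1) ∘ f) :
    IsFam (chainFam k φ) where
  inj := by
    rintro n _ ⟨j, f, hf, rfl⟩
    exact (hi j).comp hf.inj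
  comp := by
    rintro n m _ g ⟨j, f, hf, rfl⟩ hg
    exact ⟨j, f ∘ g, hf.comp hg, rfl⟩
  dir := by
    rintro n m _ _ ⟨i, f, hf, rfl⟩ ⟨j, g, hg, rfl⟩
    obtain ⟨f', hf', h1⟩ := chain_le hl (le_max_left i j)
    obtain ⟨g', hg', h2⟩ := chain_le hl (le_max_right i j)
    refine ⟨k (max i j), φ (max i j), f' ∘ f, g' ∘ g, ⟨_, id, IsEmb.refl _, rfl⟩,
      hf'.comp hf, hg'.comp hg, ?_, ?_⟩
    · rw [h1]
      rfl
    · rw [h2]
      rfl

theorem mem_chainFam {Ω : Type} (k : ℕ → ℕ) (φ : ∀ n, X (k n) → Ω) (n : ℕ) :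
    φ n ∈ chainFam k φ (k n) := ⟨n, id, IsEmb.refl _, rfl⟩

theorem mem_carrier_chainFam {Ω : Type} {k : ℕ → ℕ} {φ : ∀ n, X (k n) → Ω} {x : Ω} :
    x ∈ carrier (chainFam k φ) ↔ ∃ n, x ∈ Set.range (φ n) := by
  constructor
  · rintro ⟨m, _, ⟨n, f, hf, rfl⟩, y, rfl⟩
    exact ⟨n, f y, rfl⟩
  · rintro ⟨n, y, rfl⟩
    exact mem_carrier (mem_chainFam k φ n) y

/-- the chain of a family gives the family back -/
theorem IsFam.eq_chainFam {Ω : Type} {C : Fam Ω} (hC : IsFam C) {φ : ∀ n, X n → Ω}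
    (h1 : ∀ n, φ n ∈ C n) (h2 : ∀ n, φ (n + 1) ∘ ch 1 = φ n)
    (h3 : ∀ x ∈ carrier C, ∃ n, x ∈ Set.range (φ n)) : C = chainFam (fun n => n) φ := by
  classical
  have hl : ∀ n, ∃ f, IsEmb n (n + 1) f ∧ φ n = φ (n + 1) ∘ f := fun n =>
    ⟨ch 1, IsEmb.chart 1, (h2 n).symm⟩
  funext m
  ext χ
  constructor
  · intro hχ
    have hex : ∀ x : X m, ∃ n, χ x ∈ Set.range (φ n) := fun x => h3 _ (mem_carrier hχ x)
    choose N hN using hex
    obtain ⟨B, hB⟩ := (Set.finite_range N).bddAbove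
    obtain ⟨f, hf, h4⟩ := hC.coh hχ (h1 B) (gen_univ m) (by
      intro x _
      obtain ⟨f, hf, h5⟩ := chain_le (k := fun n => n) hl (hB ⟨x, rfl⟩)
      obtain ⟨y, hy⟩ := hN x
      exact ⟨f y, by rw [← hy, h5]; rfl⟩)
    exact ⟨B, f, hf, h4⟩
  · rintro ⟨n, f, hf, rfl⟩
    exact hC.comp _ _ _ _ (h1 n) hf

/-- closed subfamilies -/
def Ext {Ω : Type} (C C' : Fam Ω) : Prop :=
  (∀ n, C n ⊆ C' n) ∧ ∀ n (χ : X n → Ω), χ ∈ C' n → (∀ x, χ x ∈ carrier C) → χ ∈ C n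

theorem Ext.refl {Ω : Type} (C : Fam Ω) : Ext C C := ⟨fun _ => subset_rfl, fun _ _ h _ => h⟩

theorem Ext.carrier_subset {Ω : Type} {C C' : Fam Ω} (h : Ext C C') :
    carrier C ⊆ carrier C' := by
  rintro x ⟨n, φ, hφ, hx⟩
  exact ⟨n, φ, h.1 n hφ, hx⟩

theorem Ext.trans {Ω : Type} {C C' C'' : Fam Ω} (h : Ext C C') (h' : Ext C' C'') : Ext C C'' :=
  ⟨fun n => (h.1 n).trans (h'.1 n), fun n χ hχ hx =>
    h.2 n χ (h'.2 n χ hχ fun x => h.carrier_subset (hx x)) hx⟩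

/-- the levels of the charts through `b` over `S` -/
def TT {Ω : Type} (C : Fam Ω) (S : Set Ω) (b : Ω) : Set ℕ :=
  {n | ∃ ψ ∈ C (n + 1), b ∈ Set.range ψ ∧ ∃ g : J n, ∀ x, ψ (ch g x) ∈ S}

/-- absoluteness -/
theorem TT_absolute {Ω : Type} {C N : Fam Ω} (hC : IsFam C) (hN : IsFam N) (h : Ext C N)
    {S : Set Ω} (hS : S ⊆ carrier C) {b : Ω} (hb : b ∈ carrier C) (hbS : b ∉ S) :
    TT N S b ⊆ TT C S b := by
  classical
  rintro n ⟨ψ, hψ, hbψ, g, hg⟩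
  refine ⟨ψ, ?_, hbψ, g, hg⟩
  have := Fintype.ofFinite (X n)
  let F : Finset Ω := insert b (Finset.univ.image (ψ ∘ ch g))
  have hex : ∃ (r : ℕ) (χ : X r → Ω), χ ∈ C r ∧ ∀ x ∈ F, x ∈ Set.range χ := by
    refine hC.cover ⟨b, hb⟩ F fun x hx => ?_
    rcases Finset.mem_insert.1 hx with rfl | hx
    · exact hb
    · obtain ⟨y, -, rfl⟩ := Finset.mem_image.1 hx
      exact hS (hg y)
  obtain ⟨r, ⟨χ, hχ, hF⟩, hmin⟩ : ∃ r, (∃ χ : X r → Ω, χ ∈ C r ∧ ∀ x ∈ F, x ∈ Set.range χ) ∧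
      ∀ m < r, ¬ ∃ χ : X m → Ω, χ ∈ C m ∧ ∀ x ∈ F, x ∈ Set.range χ :=
    ⟨Nat.find hex, Nat.find_spec hex, fun m hm => Nat.find_min hex hm⟩
  have hbF : b ∈ F := Finset.mem_insert_self _ _
  have hgen : Gen r {x | χ x ∈ F} := by
    intro i
    by_contra hcon
    push Not at hcon
    obtain ⟨y, hy⟩ := hF b hbF
    have h0 := hcon y (by
      show χ y ∈ F
      rw [hy]
      exact hbF)
    cases r with
    | zero => exact h0
    | succ r =>
      refine hmin r (Nat.lt_succ_self r) ⟨χ ∘ ch (n := r) i, hC.comp _ _ _ _ hχ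
        (IsEmb.chart _), fun x hx => ?_⟩
      obtain ⟨z, rfl⟩ := hF x hx
      obtain ⟨w, hw⟩ := mem_succ.1 (hcon z hx)
      exact ⟨w, by rw [← hw]; rfl⟩
  obtain ⟨f, hf, h1⟩ := hN.coh (h.1 r hχ) hψ hgen (by
    intro x hx
    rcases Finset.mem_insert.1 (show χ x ∈ F from hx) with hx | hx
    · rw [hx]
      exact hbψ
    · obtain ⟨y, -, hy⟩ := Finset.mem_image.1 hx
      exact ⟨_, hy⟩)
  have hrn := hf.le
  rcases Nat.lt_or_ge n r with hlt | hge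
  · obtain rfl : r = n + 1 := by omega
    rw [hf.self] at h1
    have : χ = ψ := h1
    rw [← this]
    exact hχ
  · exfalso
    obtain ⟨f', hf', h2⟩ := hN.coh (hN.comp _ _ _ _ hψ (IsEmb.chart g)) (h.1 r hχ)
      (gen_univ n) (by
        intro x _
        exact hF _ (Finset.mem_insert_of_mem (Finset.mem_image_of_mem _ (Finset.mem_univ x))))
    have hnr := hf'.le
    obtain rfl : n = r := le_antisymm hnr hge
    rw [hf'.self] at h2
    have h3 : ψ ∘ ch g = χ := h2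
    obtain ⟨y, hy⟩ := hF b hbF
    apply hbS
    rw [← hy, ← h3]
    exact hg y

end Pool.Agent.W883.UC
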