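import Pool.Agent.W883.UC.Exts

set_option autoImplicit false

/-!
# The recursion of length `ω₁`
-/

namespace Pool.Agent.W883.UC

open Lev Cardinal

/-- unions of chains of families -/
def Un {Ω : Type} (𝒞 : Set (Fam Ω)) : Fam Ω := fun n => {χ | ∃ C ∈ 𝒞, χ ∈ C n}

/-- chains -/
def IsCh {Ω : Type} (𝒞 : Set (Fam Ω)) : Prop := ∀ C ∈ 𝒞, ∀ C' ∈ 𝒞, Ext C C' ∨ Ext C' C

theorem isFam_Un {Ω : Type} {𝒞 : Set (Fam Ω)} (h : IsCh 𝒞) (hf : ∀ C ∈ 𝒞, IsFam C) :
    IsFam (Un 𝒞) where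
  inj := by
    rintro n φ ⟨C, hC, hφ⟩
    exact (hf C hC).inj n φ hφ
  comp := by
    rintro n m φ f ⟨C, hC, hφ⟩ hf'
    exact ⟨C, hC, (hf C hC).comp n m φ f hφ hf'⟩
  dir := by
    rintro n m φ ψ ⟨C, hC, hφ⟩ ⟨C', hC', hψ⟩
    rcases h C hC C' hC' with hE | hE
    · obtain ⟨k, χ, f, f', hχ, h2⟩ := (hf C' hC').dir n m φ ψ (hE.1 n hφ) hψ
      exact ⟨k, χ, f, f', ⟨C', hC', hχ⟩, h2⟩
    · obtain ⟨k, χ, f, f', hχ, h2⟩ := (hf C hC).dir n m φ ψ hφ (hE.1 m hψ)
      exact ⟨k, χ, f, f', ⟨C, hC, hχ⟩, h2⟩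

theorem ext_Un {Ω : Type} {𝒞 : Set (Fam Ω)} (h : IsCh 𝒞) {C : Fam Ω} (hC : C ∈ 𝒞) :
    Ext C (Un 𝒞) := by
  refine ⟨fun n χ hχ => ⟨C, hC, hχ⟩, ?_⟩
  rintro n χ ⟨C', hC', hχ⟩ hx
  rcases h C hC C' hC' with hE | hE
  · exact hE.2 n χ hχ hx
  · exact hE.1 n hχ

theorem mem_carrier_Un {Ω : Type} {𝒞 : Set (Fam Ω)} {x : Ω} :
    x ∈ carrier (Un 𝒞) ↔ ∃ C ∈ 𝒞, x ∈ carrier C := by
  constructor
  · rintro ⟨n, φ, ⟨C, hC, hφ⟩, hx⟩
    exact ⟨C, hC, n, φ, hφ, hx⟩
  · rintro ⟨C, hC, n, φ, hφ, hx⟩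
    exact ⟨n, φ, ⟨C, hC, hφ⟩, hx⟩

/-- good families -/
structure Good {Ω : Type} (C : Fam Ω) : Prop where
  isFam : IsFam C
  inf : (carrier C).Infinite
  ctb : (carrier C).Countable

theorem good_Un {Ω : Type} {𝒞 : Set (Fam Ω)} (h : IsCh 𝒞) (hf : ∀ C ∈ 𝒞, Good C)
    (hne : 𝒞.Nonempty) (hct : 𝒞.Countable) : Good (Un 𝒞) where
  isFam := isFam_Un h fun C hC => (hf C hC).isFam
  inf := by
    obtain ⟨C, hC⟩ := hne
    exact (hf C hC).inf.mono (ext_Un h hC).carrier_subset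
  ctb := by
    have : carrier (Un 𝒞) = ⋃ C ∈ 𝒞, carrier C := by
      ext x
      rw [mem_carrier_Un]
      simp
    rw [this]
    exact hct.biUnion fun C hC => (hf C hC).ctb

/-- the index set -/
abbrev W : Type := (Cardinal.aleph 1).ord.ToType

theorem mk_W : #W = Cardinal.aleph 1 := by simp

theorem countable_Iio (i : W) : (Set.Iio i).Countable := by
  have h : #(Set.Iio i) < Cardinal.aleph 1 := Cardinal.mk_Iio_toType_ord_lt i
  rw [← Cardinal.le_aleph0_iff_set_countable]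
  have h1 : Cardinal.aleph 1 = Order.succ Cardinal.aleph0 := by
    rw [← Cardinal.succ_aleph0]
  exact Order.lt_succ_iff.1 (h.trans_eq h1)

theorem uncountable_W : ¬ (Set.univ : Set W).Countable := by
  intro h
  rw [← Cardinal.le_aleph0_iff_set_countable, Cardinal.mk_univ, mk_W] at h
  exact absurd h (not_le.2 Cardinal.aleph0_lt_aleph_one)

theorem exists_bound {S : Set W} (hS : S.Countable) : ∃ u, ∀ s ∈ S, s < u := by
  by_contra hcon
  push Not at hcon
  apply uncountable_W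
  have : (Set.univ : Set W) ⊆ ⋃ s ∈ S, Set.Iic s := by
    intro u _
    obtain ⟨s, hs, hu⟩ := hcon u
    exact Set.mem_biUnion hs hu
  refine Set.Countable.mono this (hS.biUnion fun s _ => ?_)
  rw [← Set.Iio_insert]
  exact (countable_Iio s).insert s

/-- closure points -/
theorem exists_closed (g : W → W) : ∃ i : W, (∃ j, j < i) ∧ ∀ j < i, g j < i := by
  classical
  have hstep : ∀ u : W, ∃ v, u < v ∧ ∀ j ≤ u, g j < v := by
    intro u
    obtain ⟨v, hv⟩ := exists_bound (S := insert u (g '' Set.Iic u)) (by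
      refine Set.Countable.insert u (Set.Countable.image ?_ g)
      rw [← Set.Iio_insert]
      exact (countable_Iio u).insert u)
    exact ⟨v, hv u (Set.mem_insert _ _), fun j hj =>
      hv _ (Set.mem_insert_of_mem _ ⟨j, hj, rfl⟩)⟩
  choose nx hnx1 hnx2 using hstep
  have hne : Nonempty W := by
    by_contra hcon
    rw [not_nonempty_iff] at hcon
    exact uncountable_W (Set.to_countable _)
  let s : ℕ → W := fun n => Nat.rec hne.some (fun _ u => nx u) n
  have hs : ∀ n, s (n + 1) = nx (s n) := fun n => rfl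
  obtain ⟨v, hv⟩ := exists_bound (Set.countable_range s)
  obtain ⟨i, hi, hmin⟩ := (wellFounded_lt (α := W)).has_min {u | ∀ n, s n < u}
    ⟨v, fun n => hv _ ⟨n, rfl⟩⟩
  refine ⟨i, ⟨s 0, hi 0⟩, fun j hj => ?_⟩
  have : ∃ n, j ≤ s n := by
    by_contra hcon
    push Not at hcon
    exact hmin j hcon hj
  obtain ⟨n, hn⟩ := this
  refine lt_trans ?_ (hi (n + 1))
  rw [hs]
  exact hnx2 _ _ hn

/-- a base family -/
theorem exists_base : ∃ C : Fam W, Good C := by
  classical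
  have hinf : ((∅ : Set W)ᶜ).Infinite := by
    rw [Set.compl_empty]
    intro h
    exact uncountable_W h.countable
  have hne : Nonempty W := by
    by_contra hcon
    rw [not_nonempty_iff] at hcon
    exact uncountable_W (Set.to_countable _)
  let B (n : ℕ) : Type := {φ : X n → W // Function.Injective φ}
  have h0 : Nonempty (B 0) := ⟨⟨fun _ => hne.some, fun _ _ _ => rfl⟩⟩
  have hstep : ∀ n (b : B n), ∃ b' : B (n + 1), ∀ x, b'.1 (ch 1 x) = b.1 x := by
    rintro n ⟨φ, hφ⟩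
    obtain ⟨φ', h1, h2, -⟩ := ext_inj (Set.range (ch (1 : J n)))
      (fun y => if h : ∃ x, ch (1 : J n) x = y then φ h.choose else hne.some) (by
        rintro _ ⟨x, rfl⟩ _ ⟨y, rfl⟩ hxy
        have hx : ∃ x', ch (1 : J n) x' = ch (1 : J n) x := ⟨x, rfl⟩
        have hy : ∃ x', ch (1 : J n) x' = ch (1 : J n) y := ⟨y, rfl⟩
        simp only [dif_pos hx, dif_pos hy] at hxy
        rw [← hx.choose_spec, ← hy.choose_spec, hφ hxy]) ∅ hinf
    refine ⟨⟨φ', h1⟩, fun x => ?_⟩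
    have hx : ∃ x', ch (1 : J n) x' = ch (1 : J n) x := ⟨x, rfl⟩
    show φ' _ = φ x
    rw [h2 _ ⟨x, rfl⟩]
    simp only [dif_pos hx]
    exact congrArg _ (ch_inj _ hx.choose_spec)
  choose nx hnx using hstep
  obtain ⟨b0⟩ := h0
  let b : ∀ n, B n := fun n => Nat.rec b0 (fun n b => nx n b) n
  have hl : ∀ n, ∃ f, IsEmb n (n + 1) f ∧ (b n).1 = (b (n + 1)).1 ∘ f := fun n =>
    ⟨ch 1, IsEmb.chart 1, funext fun x => (hnx n (b n) x).symm⟩
  refine ⟨chainFam (fun n => n) fun n => (b n).1, isFam_chainFam (k := fun n => n)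
    (fun n => (b n).2) hl, ?_, ?_⟩
  · intro hfin
    have hcard : ∀ n, Nat.card (X n) ≤ (carrier (chainFam (fun n => n) fun n => (b n).1)).ncard := by
      intro n
      rw [← Set.ncard_univ, ← Set.ncard_image_of_injective _ (b n).2]
      refine Set.ncard_le_ncard ?_ hfin
      rintro _ ⟨x, -, rfl⟩
      exact mem_carrier_chainFam.2 ⟨n, x, rfl⟩
    have h1 : ∀ n, n ≤ Nat.card (X n) := fun n => card_mono.le_apply
    have h2 := hcard ((carrier (chainFam (fun n => n) fun n => (b n).1)).ncard + 1)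
    have h3 := h1 ((carrier (chainFam (fun n => n) fun n => (b n).1)).ncard + 1)
    omega
  · have : carrier (chainFam (fun n => n) fun n => (b n).1) = ⋃ n, Set.range (b n).1 := by
      ext x
      rw [mem_carrier_chainFam, Set.mem_iUnion]
    rw [this]
    exact Set.countable_iUnion fun n => (Set.finite_range _).countable

/-- the outcome of the recursion -/
structure Tower (P : Fam W → Fam W → Prop) where
  B : Fam W
  U : W → Fam W
  F : W → Fam W
  N : Fam W
  isFam : IsFam N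
  good : ∀ i, Good (F i)
  ext : ∀ i, Ext (F i) N
  ext' : ∀ i j, i < j → Ext (F i) (F j)
  UF : ∀ i, Ext (U i) (F i)
  prop : ∀ i, P (U i) (F i)
  BF : ∀ i, carrier B ⊆ carrier (F i)
  mem_U : ∀ i x, x ∈ carrier (U i) ↔ x ∈ carrier B ∨ ∃ j < i, x ∈ carrier (F j)
  mem_N : ∀ x, x ∈ carrier N ↔ ∃ i, x ∈ carrier (F i)
  card : #(carrier N) = Cardinal.aleph 1

theorem exists_tower (P : Fam W → Fam W → Prop)
    (hP : ∀ C, Good C → ∃ C', Good C' ∧ Ext C C' ∧ (∃ b ∈ carrier C', b ∉ carrier C) ∧ P C C') :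
    Nonempty (Tower P) := by
  classical
  obtain ⟨B, hB⟩ := exists_base
  let nx : Fam W → Fam W := fun C => if h : Good C then (hP C h).choose else C
  have hnx : ∀ C, Good C → Good (nx C) ∧ Ext C (nx C) ∧
      (∃ b ∈ carrier (nx C), b ∉ carrier C) ∧ P C (nx C) := by
    intro C hC
    simp only [nx, dif_pos hC]
    exact (hP C hC).choose_spec
  let step : ∀ i : W, (∀ j : W, j < i → Fam W) → Fam W := fun i rec =>
    nx (Un (insert B {C | ∃ (j : W) (h : j < i), C = rec j h}))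
  let F : W → Fam W := (wellFounded_lt (α := W)).fix step
  let 𝒞 : W → Set (Fam W) := fun i => insert B (F '' Set.Iio i)
  let U : W → Fam W := fun i => Un (𝒞 i)
  have hF : ∀ i, F i = nx (U i) := by
    intro i
    have h := (wellFounded_lt (α := W)).fix_eq step i
    show F i = _
    rw [show F i = (wellFounded_lt (α := W)).fix step i from rfl, h]
    show nx _ = nx _
    congr 2
    show insert B _ = insert B _
    congr 1
    ext C
    constructor
    · rintro ⟨j, hj, rfl⟩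
      exact ⟨j, hj, rfl⟩
    · rintro ⟨j, hj, rfl⟩
      exact ⟨j, hj, rfl⟩
  have key : ∀ i, Good (F i) ∧ Ext B (F i) ∧ (∀ j < i, Ext (F j) (F i)) ∧ IsCh (𝒞 i) ∧
      Good (U i) := by
    intro i
    induction i using (wellFounded_lt (α := W)).induction with
    | _ i ih =>
    have hch : IsCh (𝒞 i) := by
      rintro C (rfl | ⟨j, hj, rfl⟩) C' (rfl | ⟨l, hl, rfl⟩)
      · exact Or.inl (Ext.refl _)
      · exact Or.inl (ih l hl).2.1
      · exact Or.inr (ih j hj).2.1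
      · rcases lt_trichotomy j l with h | h | h
        · exact Or.inl ((ih l hl).2.2.1 j h)
        · rw [h]
          exact Or.inl (Ext.refl _)
        · exact Or.inr ((ih j hj).2.2.1 l h)
    have hg : Good (U i) := by
      refine good_Un hch ?_ ⟨B, Set.mem_insert _ _⟩ (((countable_Iio i).image F).insert B)
      rintro C (rfl | ⟨j, hj, rfl⟩)
      · exact hB
      · exact (ih j hj).1
    have h := hnx (U i) hg
    rw [← hF] at h
    exact ⟨h.1, (ext_Un hch (Set.mem_insert _ _)).trans h.2.1, fun j hj =>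
      (ext_Un hch (Set.mem_insert_of_mem _ ⟨j, hj, rfl⟩)).trans h.2.1, hch, hg⟩
  have hall : IsCh (insert B (Set.range F)) := by
    rintro C (rfl | ⟨j, rfl⟩) C' (rfl | ⟨l, rfl⟩)
    · exact Or.inl (Ext.refl _)
    · exact Or.inl (key l).2.1
    · exact Or.inr (key j).2.1
    · rcases lt_trichotomy j l with h | h | h
      · exact Or.inl ((key l).2.2.1 j h)
      · rw [h]
        exact Or.inl (Ext.refl _)
      · exact Or.inr ((key j).2.2.1 l h)
  have hmemU : ∀ i x, x ∈ carrier (U i) ↔ x ∈ carrier B ∨ ∃ j < i, x ∈ carrier (F j) := by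
    intro i x
    rw [mem_carrier_Un]
    constructor
    · rintro ⟨C, rfl | ⟨j, hj, rfl⟩, hx⟩
      · exact Or.inl hx
      · exact Or.inr ⟨j, hj, hx⟩
    · rintro (hx | ⟨j, hj, hx⟩)
      · exact ⟨B, Set.mem_insert _ _, hx⟩
      · exact ⟨F j, Set.mem_insert_of_mem _ ⟨j, hj, rfl⟩, hx⟩
  have hne : Nonempty W := by
    by_contra hcon
    rw [not_nonempty_iff] at hcon
    exact uncountable_W (Set.to_countable _)
  have hmemN : ∀ x, x ∈ carrier (Un (insert B (Set.range F))) ↔ ∃ i, x ∈ carrier (F i) := by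
    intro x
    rw [mem_carrier_Un]
    constructor
    · rintro ⟨C, rfl | ⟨j, rfl⟩, hx⟩
      · exact ⟨hne.some, (key _).2.1.carrier_subset hx⟩
      · exact ⟨j, hx⟩
    · rintro ⟨j, hx⟩
      exact ⟨F j, Set.mem_insert_of_mem _ ⟨j, rfl⟩, hx⟩
  have hfin : ∀ i, Ext (U i) (F i) ∧ (∃ b ∈ carrier (F i), b ∉ carrier (U i)) ∧
      P (U i) (F i) := by
    intro i
    have h := hnx (U i) (key i).2.2.2.2
    rw [← hF] at h
    exact h.2
  refine ⟨{
    B := B
    U := U
    F := F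
    N := Un (insert B (Set.range F))
    isFam := isFam_Un hall (by
      rintro C (rfl | ⟨j, rfl⟩)
      · exact hB.isFam
      · exact (key j).1.isFam)
    good := fun i => (key i).1
    ext := fun i => ext_Un hall (Set.mem_insert_of_mem _ ⟨i, rfl⟩)
    ext' := fun i j hij => (key j).2.2.1 i hij
    UF := fun i => (hfin i).1
    prop := fun i => (hfin i).2.2
    BF := fun i => (key i).2.1.carrier_subset
    mem_U := hmemU
    mem_N := hmemN
    card := ?_ }⟩
  apply le_antisymm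
  · rw [← mk_W]
    exact Cardinal.mk_set_le _
  · rw [← mk_W]
    choose b hb1 hb2 using fun i => (hfin i).2.1
    refine Cardinal.mk_le_of_injective (f := fun i => (⟨b i, (hmemN _).2 ⟨i, hb1 i⟩⟩ :
      ↥(carrier (Un (insert B (Set.range F)))))) ?_
    intro i j hij
    have hij : b i = b j := congrArg Subtype.val hij
    rcases lt_trichotomy i j with h | h | h
    · exact absurd ((hmemU j _).2 (Or.inr ⟨i, h, hij ▸ hb1 i⟩)) (hb2 j)
    · exact h
    · exact absurd ((hmemU i _).2 (Or.inr ⟨j, h, hij ▸ hb1 j⟩)) (hb2 i)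

theorem compl_infinite {C : Fam W} (h : Good C) : (carrier C)ᶜ.Infinite := by
  intro hfin
  apply uncountable_W
  rw [← Set.union_compl_self (carrier C)]
  exact h.ctb.union hfin.countable

/-- tight extensions -/
def Tight (C C' : Fam W) : Prop :=
  ∃ b ∈ carrier C', b ∉ carrier C ∧ ∀ n, n ∈ TT C' (carrier C) b

/-- loose extensions -/
def Loose (C C' : Fam W) : Prop :=
  ∀ b ∈ carrier C', b ∉ carrier C → (TT C' (carrier C) b).Finite

theorem exists_tight : Nonempty (Tower Tight) := by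
  refine exists_tower _ fun C hC => ?_
  obtain ⟨C', h1, h2, h3, b, hb1, hb2, hb3⟩ := tight_ext hC.isFam hC.inf hC.ctb (compl_infinite hC)
  exact ⟨C', ⟨h1, hC.inf.mono h2.carrier_subset, h3⟩, h2, ⟨b, hb1, hb2⟩, b, hb1, hb2, hb3⟩

theorem exists_loose : Nonempty (Tower Loose) := by
  refine exists_tower _ fun C hC => ?_
  obtain ⟨C', h1, h2, h3, h4, h5⟩ := loose_ext hC.isFam hC.inf hC.ctb (compl_infinite hC)
  exact ⟨C', ⟨h1, hC.inf.mono h2.carrier_subset, h3⟩, h2, h4, h5⟩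

theorem TT_mono {Ω : Type} {C N : Fam Ω} (h : ∀ n, C n ⊆ N n) {S S' : Set Ω} (hS : S ⊆ S')
    (b : Ω) : TT C S b ⊆ TT N S' b := by
  rintro n ⟨ψ, hψ, hb, g, hg⟩
  exact ⟨ψ, h _ hψ, hb, g, fun x => hS (hg x)⟩

/-- the two towers are not isomorphic -/
theorem not_iso (t : Tower Tight) (l : Tower Loose) (θ : carrier t.N ≃ carrier l.N)
    (hθ : ∀ n (φ : X n → carrier t.N), Subtype.val ∘ φ ∈ t.N n →
      Subtype.val ∘ θ ∘ φ ∈ l.N n) : False := by
  classical
  -- bounds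
  have hg : ∀ j : W, ∃ u : W, (∀ x : carrier t.N, x.1 ∈ carrier (t.F j) →
      (θ x).1 ∈ carrier (l.F u)) ∧ (∀ y : carrier l.N, y.1 ∈ carrier (l.F j) →
      (θ.symm y).1 ∈ carrier (t.F u)) := by
    intro j
    have h1 : ∀ x : carrier t.N, ∃ r, (θ x).1 ∈ carrier (l.F r) := fun x =>
      (l.mem_N _).1 (θ x).2
    have h2 : ∀ y : carrier l.N, ∃ r, (θ.symm y).1 ∈ carrier (t.F r) := fun y =>
      (t.mem_N _).1 (θ.symm y).2
    choose r1 hr1 using h1
    choose r2 hr2 using h2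
    have hc1 : {x : carrier t.N | x.1 ∈ carrier (t.F j)}.Countable :=
      (t.good j).ctb.preimage Subtype.val_injective
    have hc2 : {x : carrier l.N | x.1 ∈ carrier (l.F j)}.Countable :=
      (l.good j).ctb.preimage Subtype.val_injective
    obtain ⟨u, hu⟩ := exists_bound ((hc1.image r1).union (hc2.image r2))
    refine ⟨u, fun x hx => ?_, fun y hy => ?_⟩
    · exact (l.ext' _ _ (hu _ (Or.inl ⟨x, hx, rfl⟩))).carrier_subset (hr1 x)
    · exact (t.ext' _ _ (hu _ (Or.inr ⟨y, hy, rfl⟩))).carrier_subset (hr2 y)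
  choose g hg1 hg2 using hg
  obtain ⟨i, ⟨i0, hi0⟩, hi⟩ := exists_closed g
  have hA : ∀ x : carrier t.N, x.1 ∈ carrier (t.U i) → (θ x).1 ∈ carrier (l.U i) := by
    intro x hx
    rw [t.mem_U] at hx
    rw [l.mem_U]
    rcases hx with hx | ⟨j, hj, hx⟩
    · exact Or.inr ⟨g i0, hi i0 hi0, hg1 i0 x (t.BF i0 hx)⟩
    · exact Or.inr ⟨g j, hi j hj, hg1 j x hx⟩
  have hA' : ∀ y : carrier l.N, y.1 ∈ carrier (l.U i) → (θ.symm y).1 ∈ carrier (t.U i) := by
    intro y hy
    rw [l.mem_U] at hy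
    rw [t.mem_U]
    rcases hy with hy | ⟨j, hj, hy⟩
    · exact Or.inr ⟨g i0, hi i0 hi0, hg2 i0 y (l.BF i0 hy)⟩
    · exact Or.inr ⟨g j, hi j hj, hg2 j y hy⟩
  obtain ⟨b, hb, hbU, hT⟩ := t.prop i
  have hbN : b ∈ carrier t.N := (t.mem_N b).2 ⟨i, hb⟩
  let c : carrier l.N := θ ⟨b, hbN⟩
  have hcU : c.1 ∉ carrier (l.U i) := by
    intro h
    apply hbU
    have := hA' c h
    rwa [Equiv.symm_apply_apply] at this
  have hT' : ∀ n, n ∈ TT l.N (carrier (l.U i)) c.1 := by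
    intro n
    obtain ⟨ψ, hψ, ⟨z, hz⟩, a, ha⟩ := hT n
    have hψN : ψ ∈ t.N (n + 1) := (t.ext i).1 _ hψ
    let ψ' : X (n + 1) → carrier t.N := fun x => ⟨ψ x, mem_carrier hψN x⟩
    have hψ' := hθ (n + 1) ψ' hψN
    refine ⟨_, hψ', ⟨z, ?_⟩, a, fun x => ?_⟩
    · show (θ (ψ' z)).1 = c.1
      congr 2
      exact Subtype.ext hz
    · exact hA _ (ha x)
  -- now the least stage
  obtain ⟨s, hs, hmin⟩ := (wellFounded_lt (α := W)).has_min {s | c.1 ∈ carrier (l.F s)}
    ((l.mem_N _).1 c.2)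
  have his : i ≤ s := by
    by_contra h
    exact hcU ((l.mem_U i _).2 (Or.inr ⟨s, not_le.1 h, hs⟩))
  have hcs : c.1 ∉ carrier (l.U s) := by
    intro h
    rw [l.mem_U] at h
    rcases h with h | ⟨j, hj, h⟩
    · exact hcU ((l.mem_U i _).2 (Or.inl h))
    · exact hmin j h hj
  have hUU : carrier (l.U i) ⊆ carrier (l.U s) := by
    intro x hx
    rw [l.mem_U] at hx ⊢
    rcases hx with h | ⟨j, hj, h⟩
    · exact Or.inl h
    · exact Or.inr ⟨j, hj.trans_le his, h⟩
  have hfin := l.prop s c.1 hs hcs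
  have h1 : TT l.N (carrier (l.U s)) c.1 ⊆ TT (l.F s) (carrier (l.U s)) c.1 :=
    TT_absolute (l.good s).isFam l.isFam (l.ext s) (l.UF s).carrier_subset hs hcs
  have h2 : (Set.univ : Set ℕ) ⊆ TT (l.F s) (carrier (l.U s)) c.1 := fun n _ =>
    h1 (TT_mono (fun _ => subset_rfl) hUU _ (hT' n))
  exact Set.infinite_univ (hfin.subset h2)

end Pool.Agent.W883.UC
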