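import Pool.Agent.W883.UC.Fam

set_option autoImplicit false

/-!
# Special copies
-/

namespace Pool.Agent.W883.UC

open Lev

/-- the twist along a maximal closed set -/
noncomputable def tw {m : ℕ} (D : (T m).I) : J m := Lev.q D (1, -1)

theorem ch_mem_range {m : ℕ} {x : X m} {g h : J m} :
    ch g x ∈ Set.range (ch h) ↔ g⁻¹ * h ∈ (T m).H (E (γ g • x)) := by
  have h1 : Lev.nmem (Lev.pt (γ g • x) g) h ↔ Lev.pt (γ g • x) g ∈ Set.range (Lev.e h) :=
    Lev.nmem_iff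
  exact h1.symm.trans Lev.nmem_pt

theorem ch_one_mem_range {m : ℕ} {x : X m} {h : J m} :
    ch 1 x ∈ Set.range (ch h) ↔ h ∈ (T m).H (E x) := by
  rw [ch_mem_range, inv_one, one_mul, map_one, one_smul]

theorem γ_tw {m : ℕ} (D : (T m).I) : γ (tw D) = 1 := Lev.γ_q _ _

theorem ch_tw_mem_range {m : ℕ} {x : X m} {D : (T m).I} {h : J m} :
    ch (tw D) x ∈ Set.range (ch h) ↔ (tw D)⁻¹ * h ∈ (T m).H (E x) := by
  rw [ch_mem_range, γ_tw, one_smul]

theorem tw_mem_H {m : ℕ} (D : (T m).I) (x : X m) : tw D ∈ (T m).H (E x) ↔ (T m).mem x D := by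
  constructor
  · intro h
    by_contra hx
    exact Lev.not_mem_H (α := E x) hx (Lev.q_mem D _) (Lev.q_ne_one D (unit_ne _)) h
  · intro h
    refine Lev.H_mono ?_ (Lev.q_mem D _)
    rintro _ rfl
    exact h

theorem tw_ne_one {m : ℕ} (D : (T m).I) : tw D ≠ 1 := Lev.q_ne_one D (unit_ne _)

theorem ch_one_mem_tw {m : ℕ} (D : (T m).I) (x : X m) :
    ch (1 : J m) x ∈ Set.range (ch (tw D)) ↔ (T m).mem x D := by
  rw [ch_one_mem_range, tw_mem_H]

theorem ch_tw_mem_one {m : ℕ} (D : (T m).I) (x : X m) :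
    ch (tw D) x ∈ Set.range (ch (1 : J m)) ↔ (T m).mem x D := by
  rw [ch_tw_mem_range, mul_one, inv_mem_iff, tw_mem_H]

theorem ch_tw_eq {m : ℕ} {D : (T m).I} {x : X m} (h : (T m).mem x D) :
    ch (tw D) x = ch (1 : J m) x := by
  refine Lev.e_eq_e.2 ⟨?_, ?_⟩
  · rw [γ_tw, map_one]
  · rw [mul_one, inv_mem_iff, γ_tw, one_smul]
    exact (tw_mem_H D x).2 h

/-- the index of a chart -/
def ix {m : ℕ} (g : J m) : (T (m + 1)).I := g

theorem mem_ix {m : ℕ} {x : X (m + 1)} {g : J m} :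
    (T (m + 1)).mem x (ix g) ↔ x ∈ Set.range (ch g) := mem_succ

/-- the twist along the standard copy -/
noncomputable def dl (m : ℕ) : J (m + 1) := tw (ix (1 : J m))

/-- the second twist -/
noncomputable def gl (m : ℕ) : J (m + 2) := tw (ix (dl m))

theorem ch_dl_ch (m : ℕ) (x : X m) : ch (dl m) (ch 1 x) = ch 1 (ch 1 x) :=
  ch_tw_eq (mem_ix.2 ⟨x, rfl⟩)

theorem ch_one_mem_dl {m : ℕ} {x : X (m + 1)} :
    ch 1 x ∈ Set.range (ch (dl m)) ↔ x ∈ Set.range (ch (1 : J m)) :=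
  (ch_one_mem_tw _ x).trans mem_ix

theorem ch_dl_mem_one {m : ℕ} {x : X (m + 1)} :
    ch (dl m) x ∈ Set.range (ch 1) ↔ x ∈ Set.range (ch (1 : J m)) :=
  (ch_tw_mem_one _ x).trans mem_ix

theorem ch_gl_eq {m : ℕ} {x : X (m + 2)} (h : x ∈ Set.range (ch (dl m))) :
    ch (gl m) x = ch 1 x :=
  ch_tw_eq (mem_ix.2 h)

theorem ch_gl_ch (m : ℕ) (x : X m) : ch (gl m) (ch 1 (ch 1 x)) = ch 1 (ch 1 (ch 1 x)) :=
  ch_gl_eq ⟨ch 1 x, ch_dl_ch m x⟩

theorem ch_gl_mem_one {m : ℕ} {x : X (m + 2)} :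
    ch (gl m) x ∈ Set.range (ch 1) ↔ x ∈ Set.range (ch (dl m)) :=
  (ch_tw_mem_one _ x).trans mem_ix

/-- pullback property of the second twist -/
theorem ch_gl_pull {m : ℕ} {x : X (m + 2)} {y : X (m + 1)} (h : ch (gl m) x = ch 1 (ch 1 y)) :
    ∃ z, x = ch 1 (ch 1 z) ∧ y = ch 1 z := by
  have h1 : x ∈ Set.range (ch (dl m)) := ch_gl_mem_one.1 ⟨_, h.symm⟩
  rw [ch_gl_eq h1] at h
  have h2 := ch_inj _ h
  rw [h2] at h1
  obtain ⟨z, rfl⟩ := ch_one_mem_dl.1 h1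
  exact ⟨z, h2, rfl⟩

/-- pullback property of the first twist -/
theorem ch_dl_pull {m : ℕ} {x : X (m + 1)} {y : X (m + 1)} (h : ch (dl m) x = ch 1 y) :
    ∃ z, x = ch 1 z ∧ y = ch 1 z := by
  obtain ⟨z, rfl⟩ := ch_dl_mem_one.1 ⟨_, h.symm⟩
  rw [ch_dl_ch] at h
  exact ⟨z, rfl, (ch_inj _ h).symm⟩

theorem tw_apply_singleton {m : ℕ} (D : (T m).I) : (tw D).1 {D} = (1, -1) := by
  classical
  simp [tw, Lev.q]

theorem tw_apply_singleton_ne {m : ℕ} {D D' : (T m).I} (h : D ≠ D') : (tw D).1 {D'} = 1 := by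
  classical
  simp [tw, Lev.q, h]

theorem apply_singleton_of_mem_H {m : ℕ} {α : Set (T m).I} {z : J m} (hz : z ∈ (T m).H α)
    {D : (T m).I} (hD : D ∉ α) : z.1 {D} = 1 := by
  rw [hz, Set.singleton_inter_eq_empty.2 hD]
  exact z.2

/-- a product of elements -/
theorem tw_inv_mul_apply {m : ℕ} {D D' : (T m).I} (z : J m) :
    ((tw D)⁻¹ * z).1 {D'} = ((tw D).1 {D'})⁻¹ * z.1 {D'} := rfl

/-- the key fact on the loose extension -/
theorem loose_key {i : ℕ} {y : X (i + 2)} (hy : y ∉ Set.range (ch 1 ∘ ch (1 : J i)))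
    {g : J (i + 3)} (hg : ch (gl (i + 1)) (ch (gl i) y) ∈ Set.range (ch g)) (w : X (i + 2))
    (hw : ch 1 (ch 1 w) ∈ Set.range (ch g)) : w ∈ Set.range (ch (1 : J (i + 1))) := by
  -- first, `ch (gl i) y` is not in the copy `dl (i + 1)`
  have h1 : ch (gl i) y ∉ Set.range (ch (dl (i + 1))) := by
    intro h
    have hne : ix (1 : J (i + 1)) ≠ ix (dl i) := fun h => tw_ne_one _ h.symm
    have h := ch_tw_mem_range.1 h
    have ha : (T (i + 2)).mem y (ix (1 : J (i + 1))) := by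
      by_contra hcon
      have h2 := apply_singleton_of_mem_H h (D := ix (1 : J (i + 1))) hcon
      rw [tw_inv_mul_apply, tw_apply_singleton_ne hne.symm, inv_one, one_mul] at h2
      have h3 : (dl (i + 1)).1 {ix (1 : J (i + 1))} = (1, -1) := tw_apply_singleton _
      rw [h3] at h2
      exact unit_ne _ h2
    have hb : (T (i + 2)).mem y (ix (dl i)) := by
      by_contra hcon
      have h2 := apply_singleton_of_mem_H h (D := ix (dl i)) hcon
      rw [tw_inv_mul_apply] at h2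
      have h3 : (dl (i + 1)).1 {ix (dl i)} = 1 := tw_apply_singleton_ne hne
      rw [h3, mul_one, inv_eq_one, tw_apply_singleton] at h2
      exact unit_ne _ h2
    obtain ⟨z, rfl⟩ := mem_ix.1 ha
    obtain ⟨v, rfl⟩ := ch_one_mem_dl.1 (mem_ix.1 hb)
    exact hy ⟨v, rfl⟩
  by_contra hcon
  have hg := ch_tw_mem_range.1 hg
  rw [ch_one_mem_range] at hw
  have hD1 : ix (dl (i + 1)) ∉ E (ch (gl i) y) := fun h => h1 (mem_ix.1 h)
  have hD2 : ix (dl (i + 1)) ∉ E (ch (1 : J (i + 2)) w) := fun h =>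
    hcon (ch_one_mem_dl.1 (mem_ix.1 h))
  have h2 := apply_singleton_of_mem_H hg hD1
  have h3 := apply_singleton_of_mem_H hw hD2
  rw [tw_inv_mul_apply, h3, mul_one, tw_apply_singleton, inv_eq_one] at h2
  exact unit_ne _ h2

/-- a copy and a further point generate -/
theorem gen_insert {m : ℕ} (g : J m) {x : X (m + 1)} (hx : x ∉ Set.range (ch g)) :
    Gen (m + 1) (insert x (Set.range (ch g))) := by
  intro i
  by_contra hcon
  push Not at hcon
  obtain ⟨f, hf, h⟩ := coh (m + 1) m m (ch g) (ch (n := m) i) Set.univ (IsEmb.chart _)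
    (IsEmb.chart _) (gen_univ m)
    (fun x _ => mem_succ.1 (hcon _ (Set.mem_insert_of_mem _ ⟨x, rfl⟩)))
  rw [hf.self] at h
  apply hx
  rw [h]
  exact mem_succ.1 (hcon x (Set.mem_insert _ _))

end Pool.Agent.W883.UC
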