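import Mathlib

set_option autoImplicit false

/-!
# A tower of finite homogeneous structures

Level `n` is a finite set `X n` with a finite family of maximal closed subsets (indexed by `I n`).
-/

namespace Pool.Agent.W883.UC

/-- a level of the tower -/
structure Lev where
  X : Type
  I : Type
  mem : X → I → Prop
  G : Type
  grp : Group G
  actX : @MulAction G X grp.toMonoid
  actI : @MulAction G I grp.toMonoid
  finX : Finite X
  finI : Finite I
  finG : Finite G
  memS : ∀ (g : G) (x : X) (i : I),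
    mem (@HSMul.hSMul G X X (@instHSMul G X actX.toSMul) g x)
      (@HSMul.hSMul G I I (@instHSMul G I actI.toSMul) g i) ↔ mem x i

attribute [instance] Lev.grp Lev.actX Lev.actI Lev.finX Lev.finI Lev.finG

namespace Lev

variable (L : Lev)

theorem mem_smul (g : L.G) (x : L.X) (i : L.I) : L.mem (g • x) (g • i) ↔ L.mem x i :=
  L.memS g x i

/-- the values -/
abbrev Q : Type := L.G × ℤˣ

/-- the gluing group -/
def GG : Subgroup (Set L.I → L.Q) where
  carrier := {z | z ∅ = 1}
  one_mem' := rfl
  mul_mem' := by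
    intro a b ha hb
    simp only [Set.mem_setOf_eq, Pi.mul_apply] at *
    rw [ha, hb, one_mul]
  inv_mem' := by
    intro a ha
    simp only [Set.mem_setOf_eq, Pi.inv_apply] at *
    rw [ha, inv_one]

/-- elements whose content is in `α` -/
def H (α : Set L.I) : Subgroup L.GG where
  carrier := {z | ∀ A : Set L.I, z.1 A = z.1 (A ∩ α)}
  one_mem' := fun _ => rfl
  mul_mem' := by
    intro a b ha hb A
    simp only [Subgroup.coe_mul, Pi.mul_apply]
    rw [ha A, hb A]
  inv_mem' := by
    intro a ha A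
    simp only [Subgroup.coe_inv, Pi.inv_apply]
    rw [ha A]

variable {L}

theorem mem_H {α : Set L.I} {z : L.GG} : z ∈ L.H α ↔ ∀ A : Set L.I, z.1 A = z.1 (A ∩ α) := Iff.rfl

theorem H_mono {α β : Set L.I} (h : α ⊆ β) : L.H α ≤ L.H β := by
  intro z hz A
  rw [hz A, hz (A ∩ β), Set.inter_assoc, Set.inter_eq_self_of_subset_right h]

theorem H_inter {α β : Set L.I} {z : L.GG} (h1 : z ∈ L.H α) (h2 : z ∈ L.H β) :
    z ∈ L.H (α ∩ β) := by
  intro A
  rw [h2 A, h1 (A ∩ β), Set.inter_assoc, Set.inter_comm β α]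

theorem H_empty {z : L.GG} (h : z ∈ L.H ∅) : z = 1 := by
  ext1
  funext A
  rw [h A, Set.inter_empty]
  exact z.2

/-- the points of the copies: for a nonempty family -/
theorem H_iInter {ι : Type} [Finite ι] (α : ι → Set L.I) {z : L.GG} (h : ∀ i, z ∈ L.H (α i)) :
    z ∈ L.H (⋂ i, α i) := by
  classical
  have := Fintype.ofFinite ι
  have key : ∀ s : Finset ι, z ∈ L.H (⋂ i ∈ s, α i) := by
    intro s
    induction s using Finset.induction_on with
    | empty =>
      intro A
      simp
    | insert a s _ ih =>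
      rw [Finset.set_biInter_insert]
      exact H_inter (h a) ih
  have := key Finset.univ
  simpa using this

/-- the indices of the maximal closed sets through `x` -/
def E (x : L.X) : Set L.I := {i | L.mem x i}

theorem mem_E {x : L.X} {i : L.I} : i ∈ E x ↔ L.mem x i := Iff.rfl

/-- if `D ∉ α`, a nontrivial element with content `{D}` is not in `H α` -/
theorem not_mem_H {α : Set L.I} {D : L.I} (hD : D ∉ α) {z : L.GG} (hz : z ∈ L.H {D})
    (h1 : z ≠ 1) : z ∉ L.H α := by
  intro h
  apply h1
  apply H_empty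
  have := H_inter h hz
  rwa [Set.inter_singleton_eq_empty.2 hD] at this

open Classical in
/-- the generators of the gluing group -/
noncomputable def q (D : L.I) (u : L.Q) : L.GG :=
  ⟨fun A => if D ∈ A then u else 1, by
    exact if_neg (Set.notMem_empty D)⟩

theorem q_mem (D : L.I) (u : L.Q) : q D u ∈ L.H {D} := by
  classical
  intro A
  simp only [q, Set.mem_inter_iff, Set.mem_singleton_iff, and_true]

theorem q_ne_one (D : L.I) {u : L.Q} (hu : u ≠ 1) : q D u ≠ 1 := by
  classical
  intro h
  apply hu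
  have := congrFun (congrArg Subtype.val h) Set.univ
  simpa [q] using this

/-- the label of a copy -/
def γ : L.GG →* L.G where
  toFun z := (z.1 Set.univ).1
  map_one' := rfl
  map_mul' _ _ := rfl

theorem γ_q (D : L.I) (u : L.Q) : γ (q D u) = u.1 := by
  classical
  simp [γ, q]

/-- the action of the group of the level on the gluing group -/
instance actGG : MulDistribMulAction L.G L.GG where
  smul τ z := ⟨fun A => z.1 ((τ • ·) ⁻¹' A), by
    show z.1 ((τ • ·) ⁻¹' ∅) = 1
    rw [Set.preimage_empty]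
    exact z.2⟩
  one_smul z := by
    ext1
    funext A
    show z.1 (((1 : L.G) • ·) ⁻¹' A) = z.1 A
    have : ((1 : L.G) • · : L.I → L.I) ⁻¹' A = A := by
      ext i
      simp
    rw [this]
  mul_smul σ τ z := by
    ext1
    funext A
    show z.1 (((σ * τ) • ·) ⁻¹' A) = z.1 ((τ • ·) ⁻¹' ((σ • ·) ⁻¹' A))
    have : ((σ * τ) • · : L.I → L.I) ⁻¹' A = (τ • ·) ⁻¹' ((σ • ·) ⁻¹' A) := by
      ext i
      simp [mul_smul]
    rw [this]
  smul_one τ := by
    ext1
    rfl
  smul_mul τ z w := by
    ext1
    rfl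

theorem smul_apply (τ : L.G) (z : L.GG) (A : Set L.I) :
    (τ • z).1 A = z.1 ((τ • ·) ⁻¹' A) := rfl

theorem γ_smul (τ : L.G) (z : L.GG) : γ (τ • z) = γ z := by
  show (z.1 ((τ • ·) ⁻¹' Set.univ)).1 = (z.1 Set.univ).1
  rw [Set.preimage_univ]

theorem smul_mem_H {τ : L.G} {z : L.GG} {x : L.X} :
    τ • z ∈ L.H (E (τ • x)) ↔ z ∈ L.H (E x) := by
  have hpre : ∀ x : L.X, (τ • · : L.I → L.I) ⁻¹' (E (τ • x)) = E x := by
    intro x
    ext i
    exact L.mem_smul τ x i
  constructor
  · intro h A
    have := h ((τ⁻¹ • ·) ⁻¹' A)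
    rw [smul_apply, smul_apply, Set.preimage_inter, hpre] at this
    have h2 : (τ • · : L.I → L.I) ⁻¹' ((τ⁻¹ • ·) ⁻¹' A) = A := by
      ext i
      simp
    rw [h2] at this
    exact this
  · intro h A
    rw [smul_apply, smul_apply, h, Set.preimage_inter, hpre]

/-- gluing relation -/
def rel (p p' : L.X × L.GG) : Prop := p.1 = p'.1 ∧ p.2⁻¹ * p'.2 ∈ L.H (E p.1)

variable (L) in
/-- the gluing setoid -/
def setd : Setoid (L.X × L.GG) where
  r := rel
  iseqv := by
    refine ⟨fun p => ⟨rfl, by simp [one_mem]⟩, ?_, ?_⟩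
    · rintro ⟨x, g⟩ ⟨y, h⟩ ⟨h1, h2⟩
      simp only at h1 h2
      subst h1
      refine ⟨rfl, ?_⟩
      have := inv_mem h2
      simpa using this
    · rintro ⟨x, g⟩ ⟨y, h⟩ ⟨z, k⟩ ⟨h1, h2⟩ ⟨h3, h4⟩
      simp only at h1 h2 h3 h4
      subst h1
      subst h3
      refine ⟨rfl, ?_⟩
      have := mul_mem h2 h4
      simpa [mul_assoc] using this

variable (L) in
/-- the points of the next level -/
def NX : Type := Quotient L.setd

/-- points of the next level -/
def pt (x : L.X) (g : L.GG) : L.NX := Quotient.mk L.setd (x, g)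

theorem pt_eq {x y : L.X} {g h : L.GG} : pt x g = pt y h ↔ x = y ∧ g⁻¹ * h ∈ L.H (E x) :=
  Quotient.eq (r := L.setd)

theorem exists_pt (p : L.NX) : ∃ x g, p = pt x g := by
  obtain ⟨⟨x, g⟩, rfl⟩ := Quotient.exists_rep p
  exact ⟨x, g, rfl⟩

/-- a point is in the copy `g` -/
def nmem (p : L.NX) (g : L.GG) : Prop := ∃ x, p = pt x g

theorem nmem_pt {x : L.X} {g h : L.GG} : nmem (pt x g) h ↔ g⁻¹ * h ∈ L.H (E x) := by
  constructor
  · rintro ⟨y, hy⟩
    exact (pt_eq.1 hy).2
  · intro hh
    exact ⟨x, pt_eq.2 ⟨rfl, hh⟩⟩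

/-- the homomorphism to automorphisms -/
def φ (L : Lev) : L.G →* MulAut L.GG := MulDistribMulAction.toMulAut L.G L.GG

theorem φ_apply (τ : L.G) (z : L.GG) : φ L τ z = τ • z := rfl

/-- the group of the next level -/
def NG (L : Lev) : Subgroup (L.GG ⋊[φ L] L.G) where
  carrier := {a | γ a.left = a.right}
  one_mem' := by
    show γ (1 : L.GG) = 1
    exact map_one _
  mul_mem' := by
    intro a b ha hb
    show γ (a.left * (φ L a.right) b.left) = a.right * b.right
    rw [map_mul, φ_apply, γ_smul]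
    rw [show γ a.left = a.right from ha, show γ b.left = b.right from hb]
  inv_mem' := by
    intro a ha
    show γ ((φ L a.right⁻¹) a.left⁻¹) = a.right⁻¹
    rw [φ_apply, γ_smul, map_inv]
    rw [show γ a.left = a.right from ha]

/-- the action on the points -/
def smulX (a : L.GG ⋊[φ L] L.G) : L.NX → L.NX :=
  Quotient.lift (fun p : L.X × L.GG => pt (a.right • p.1) (a.left * a.right • p.2)) (by
    rintro ⟨x, g⟩ ⟨y, h⟩ ⟨h1, h2⟩
    simp only at h1 h2
    subst h1
    simp only
    rw [pt_eq]
    refine ⟨rfl, ?_⟩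
    have : (a.left * a.right • g)⁻¹ * (a.left * a.right • h) = a.right • (g⁻¹ * h) := by
      rw [mul_inv_rev, mul_assoc, inv_mul_cancel_left, smul_mul', smul_inv']
    rw [this]
    exact smul_mem_H.2 h2)

theorem smulX_pt (a : L.GG ⋊[φ L] L.G) (x : L.X) (g : L.GG) :
    smulX a (pt x g) = pt (a.right • x) (a.left * a.right • g) := rfl

instance actNX : MulAction (NG L) L.NX where
  smul a p := smulX a.1 p
  one_smul p := by
    obtain ⟨x, g, rfl⟩ := exists_pt p
    show smulX 1 (pt x g) = pt x g
    rw [smulX_pt]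
    simp
  mul_smul a b p := by
    obtain ⟨x, g, rfl⟩ := exists_pt p
    show smulX (a.1 * b.1) (pt x g) = smulX a.1 (smulX b.1 (pt x g))
    rw [smulX_pt, smulX_pt, smulX_pt]
    simp only [SemidirectProduct.mul_left, SemidirectProduct.mul_right, φ_apply, mul_smul,
      smul_mul', mul_assoc]

instance actNI : MulAction (NG L) L.GG where
  smul a g := a.1.left * a.1.right • g
  one_smul g := by
    show (1 : L.GG) * (1 : L.G) • g = g
    simp
  mul_smul a b g := by
    show (a.1 * b.1).left * (a.1 * b.1).right • g =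
      a.1.left * a.1.right • (b.1.left * b.1.right • g)
    simp only [SemidirectProduct.mul_left, SemidirectProduct.mul_right, φ_apply, mul_smul,
      smul_mul', mul_assoc]

theorem NG_smul_pt (a : NG L) (x : L.X) (g : L.GG) :
    a • (pt x g) = pt (a.1.right • x) (a.1.left * a.1.right • g) := rfl

theorem NG_smul_I (a : NG L) (g : L.GG) : a • g = a.1.left * a.1.right • g := rfl

instance finGG : Finite L.GG := inferInstance

instance finNX : Finite L.NX := Quotient.finite _

instance finNG : Finite (NG L) := by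
  have : Finite (L.GG ⋊[φ L] L.G) := Finite.of_equiv _ SemidirectProduct.equivProd.symm
  infer_instance

variable (L) in
/-- the next level -/
def next : Lev where
  X := L.NX
  I := L.GG
  mem := nmem
  G := NG L
  grp := inferInstance
  actX := actNX
  actI := actNI
  finX := inferInstance
  finI := inferInstance
  finG := inferInstance
  memS := by
    intro a p g
    obtain ⟨x, h, rfl⟩ := exists_pt p
    show nmem (a • pt x h) (a • g) ↔ nmem (pt x h) g
    rw [NG_smul_pt, NG_smul_I, nmem_pt, nmem_pt]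
    have : (a.1.left * a.1.right • h)⁻¹ * (a.1.left * a.1.right • g) = a.1.right • (h⁻¹ * g) := by
      rw [mul_inv_rev, mul_assoc, inv_mul_cancel_left, smul_mul', smul_inv']
    rw [this]
    exact smul_mem_H

/-- the chart of the copy `g` -/
def e (g : L.GG) (y : L.X) : L.NX := pt (γ g • y) g

theorem e_inj (g : L.GG) : Function.Injective (e g : L.X → L.NX) := by
  intro y y' h
  exact smul_left_cancel _ (pt_eq.1 h).1

theorem e_one (y : L.X) : e 1 y = pt y 1 := by
  simp [e]

theorem nmem_e (g : L.GG) (y : L.X) : nmem (e g y) g := ⟨_, rfl⟩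

theorem nmem_iff {p : L.NX} {g : L.GG} : nmem p g ↔ p ∈ Set.range (e g) := by
  constructor
  · rintro ⟨x, rfl⟩
    exact ⟨(γ g)⁻¹ • x, by simp [e]⟩
  · rintro ⟨y, rfl⟩
    exact nmem_e g y

/-- the group of the next level permutes the charts -/
theorem smul_e (a : NG L) (g : L.GG) (y : L.X) : a • e g y = e (a • g) y := by
  rw [e, NG_smul_pt, e, NG_smul_I, map_mul, γ_smul, mul_smul]
  rw [show γ a.1.left = a.1.right from a.2]

/-- the element moving the copy `1` to the copy `g` -/
def mv (g : L.GG) : NG L := ⟨⟨g, γ g⟩, rfl⟩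

theorem mv_smul_one (g : L.GG) : mv g • (1 : L.GG) = g := by
  rw [NG_smul_I]
  simp [mv]

theorem exists_smul_eq (g g' : L.GG) : ∃ a : NG L, a • g = g' := by
  refine ⟨mv g' * (mv g)⁻¹, ?_⟩
  rw [mul_smul]
  have : (mv g)⁻¹ • g = (1 : L.GG) := by
    rw [inv_smul_eq_iff, mv_smul_one]
  rw [this, mv_smul_one]

/-- overlaps -/
theorem e_eq_e {g h : L.GG} {x y : L.X} : e g x = e h y ↔
    γ g • x = γ h • y ∧ g⁻¹ * h ∈ L.H (E (γ g • x)) := pt_eq

end Lev

/-- the base level -/
def base : Lev where
  X := Unit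
  I := Unit
  mem := fun _ _ => False
  G := Unit
  grp := inferInstance
  actX := { smul := fun _ x => x, one_smul := fun _ => rfl, mul_smul := fun _ _ _ => rfl }
  actI := { smul := fun _ x => x, one_smul := fun _ => rfl, mul_smul := fun _ _ _ => rfl }
  finX := inferInstance
  finI := inferInstance
  finG := inferInstance
  memS := fun _ _ _ => Iff.rfl

/-- the tower -/
def T : ℕ → Lev
  | 0 => base
  | n + 1 => (T n).next

end Pool.Agent.W883.UC
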